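import Pool.Agent.Lib.H69.Hopf.Alt

/-! # H35R, definitions: differences of sums of squares of simple two-forms, see PROOF.md -/

set_option autoImplicit false

namespace H35R

open Finset Equiv Pool.Agent.H69Hopf

/-- The simple two-form `x ∧ y`. -/
def wd {N : ℕ} (x y : Fin N → ℝ) : Fin N → Fin N → ℝ := fun i j => x i * y j - x j * y i

/-- The sum of the squares of the simple two-forms `x s ∧ y s` with the coefficients `c s`. -/
def sq {S : Type} [Fintype S] {N : ℕ} (c : S → ℝ) (x y : S → Fin N → ℝ) : Arr N :=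
  fun i j k l => ∑ s, c s * (wd (x s) (y s) i j * wd (x s) (y s) k l)

/-- The rows `x 0, y 0, x 1, y 1, ...`. -/
def rows {n : ℕ} {V : Type} (x y : Fin n → V) : Fin (2 * n) → V := fun k =>
  if k.1 % 2 = 0 then x ⟨k.1 / 2, by omega⟩ else y ⟨k.1 / 2, by omega⟩

/-- The determinant of the rows `x 0, y 0, x 1, y 1, ...`. -/
noncomputable def Dd {n : ℕ} (x y : Fin n → (Fin (2 * n) → ℝ)) : ℝ := Matrix.det (Matrix.of (rows x y))

/-- `j` factors `Q` and `n - j` factors `P`. -/
noncomputable def FF {n : ℕ} (P Q : Arr (2 * n)) (j : ℕ) : ℝ :=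
  mgb (fun i : Fin n => if i.1 < j then Q else P)

theorem rows_fst {n : ℕ} {V : Type} (x y : Fin n → V) (i : Fin n) : rows x y (fst i) = x i := by
  unfold rows fst
  have h1 : (2 * i.1) % 2 = 0 := by omega
  have h2 : (2 * i.1) / 2 = i.1 := by omega
  simp only [h1, if_true]
  congr 1
  exact Fin.ext h2

theorem rows_snd {n : ℕ} {V : Type} (x y : Fin n → V) (i : Fin n) : rows x y (snd i) = y i := by
  unfold rows snd
  have h1 : ¬ (2 * i.1 + 1) % 2 = 0 := by omega
  have h2 : (2 * i.1 + 1) / 2 = i.1 := by omega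
  simp only [h1, if_false]
  congr 1
  exact Fin.ext h2

end H35R
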