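import Pool.Agent.Lib.H35R.D

/-! # H35R, chunk E0: values of `sq` on planes, curvature symmetries -/

set_option autoImplicit false

namespace H35R

open Finset Equiv Pool.Agent.H69Hopf

private theorem e0_sum {S : Type} [Fintype S] {N : ℕ} (A : S → Arr N) (u v z w : Fin N → ℝ) :
    ev (fun i j k l => ∑ s, A s i j k l) u v z w = ∑ s, ev (A s) u v z w := by
  simp only [ev, Finset.sum_mul]
  symm
  rw [Finset.sum_comm]
  refine Finset.sum_congr rfl fun i _ => ?_
  rw [Finset.sum_comm]
  refine Finset.sum_congr rfl fun j _ => ?_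
  rw [Finset.sum_comm]
  refine Finset.sum_congr rfl fun k _ => ?_
  rw [Finset.sum_comm]

private theorem e0_one {N : ℕ} (c : ℝ) (W : Fin N → Fin N → ℝ) (u v : Fin N → ℝ) :
    ev (fun i j k l => c * (W i j * W k l)) u v u v = c * (∑ i, ∑ j, W i j * u i * v j) ^ 2 := by
  rw [pow_two, Finset.sum_mul, Finset.mul_sum]
  simp only [ev]
  refine Finset.sum_congr rfl fun i _ => ?_
  rw [Finset.sum_mul, Finset.mul_sum]
  refine Finset.sum_congr rfl fun j _ => ?_
  rw [Finset.mul_sum, Finset.mul_sum]
  refine Finset.sum_congr rfl fun k _ => ?_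
  rw [Finset.mul_sum, Finset.mul_sum]
  refine Finset.sum_congr rfl fun l _ => ?_
  ring

private theorem e0_wd {N : ℕ} (x y u v : Fin N → ℝ) :
    ∑ i, ∑ j, wd x y i j * u i * v j =
      (∑ i, x i * u i) * (∑ i, y i * v i) - (∑ i, x i * v i) * (∑ i, y i * u i) := by
  rw [mul_comm (∑ i, x i * v i)]
  rw [Finset.sum_mul, Finset.sum_mul, ← Finset.sum_sub_distrib]
  refine Finset.sum_congr rfl fun i _ => ?_
  rw [Finset.mul_sum, Finset.mul_sum, ← Finset.sum_sub_distrib]
  refine Finset.sum_congr rfl fun j _ => ?_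
  unfold wd
  ring

/-- PROOF: `ev` is `∑ i j k l, R i j k l * u i * v j * u k * v l`; exchange the sum over `s` with the others; for each `s`
the sum over `i j k l` is `(∑ i j, wd x y i j * u i * v j) ^ 2` and `∑ i j, wd x y i j * u i * v j =
(∑ i, x i * u i) * (∑ j, y j * v j) - (∑ i, x i * v i) * (∑ j, y j * u j)`. -/
theorem ev_sq {S : Type} [Fintype S] {N : ℕ} (c : S → ℝ) (x y : S → Fin N → ℝ) (u v : Fin N → ℝ) :
    ev (sq c x y) u v u v = ∑ s, c s *
      ((∑ i, x s i * u i) * (∑ i, y s i * v i) - (∑ i, x s i * v i) * (∑ i, y s i * u i)) ^ 2 := by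
  have h := e0_sum (fun (s : S) (i j k l : Fin N) => c s * (wd (x s) (y s) i j * wd (x s) (y s) k l))
    u v u v
  refine h.trans (Finset.sum_congr rfl fun s _ => ?_)
  rw [← e0_wd]
  exact e0_one (c s) (wd (x s) (y s)) u v

/-- PROOF: skew: `wd` is skew; pair: `mul_comm`; Bianchi: the Pluecker relation
`wd x y i j * wd x y k l + wd x y j k * wd x y i l + wd x y k i * wd x y j l = 0` (`ring`), termwise in `s`. -/
theorem algCurv_sq {S : Type} [Fintype S] {N : ℕ} (c : S → ℝ) (x y : S → Fin N → ℝ) : IsAlgCurv (sq c x y) := by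
  refine ⟨?_, ?_, ?_⟩
  · intro i j k l
    unfold sq
    rw [← Finset.sum_neg_distrib]
    refine Finset.sum_congr rfl fun s _ => ?_
    unfold wd
    ring
  · intro i j k l
    unfold sq
    refine Finset.sum_congr rfl fun s _ => ?_
    ring
  · intro i j k l
    unfold sq
    rw [← Finset.sum_add_distrib, ← Finset.sum_add_distrib]
    refine Finset.sum_eq_zero fun s _ => ?_
    unfold wd
    ring

/-- Linearity in the coefficients. -/
theorem sq_sub_smul {S : Type} [Fintype S] {N : ℕ} (α β : S → ℝ) (t : ℝ) (x y : S → Fin N → ℝ) :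
    sq (fun s => α s - t * β s) x y = fun i j k l => sq α x y i j k l - t * sq β x y i j k l := by
  funext i j k l
  unfold sq
  rw [Finset.mul_sum, ← Finset.sum_sub_distrib]
  refine Finset.sum_congr rfl fun s _ => ?_
  ring

end H35R
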