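import Pool.Agent.Lib.H35R.D

/-! # H35R, chunk E1: alternating sums of products of simple two-forms -/

set_option autoImplicit false

namespace H35R

open Finset Equiv Pool.Agent.H69Hopf

/-- PROOF: `σ ↦ σ * swap (fst j) (snd j)` is a bijection which changes the sign (`Perm.sign_swap`), exchanges
`σ (fst j)` and `σ (snd j)`, and does not change `g`. -/
theorem swap_factor {n : ℕ} (j : Fin n) (g : Perm (Fin (2 * n)) → ℝ)
    (hg : ∀ σ, g (σ * swap (fst j) (snd j)) = g σ) (a b : Fin (2 * n) → ℝ) :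
    ∑ σ : Perm (Fin (2 * n)), ((Perm.sign σ : ℤ) : ℝ) * (g σ * wd a b (σ (fst j)) (σ (snd j))) =
      ∑ σ : Perm (Fin (2 * n)), ((Perm.sign σ : ℤ) : ℝ) * (g σ * (2 * (a (σ (fst j)) * b (σ (snd j))))) := by
  have hne : fst j ≠ snd j := fst_ne_snd j j
  have key : ∑ σ : Perm (Fin (2 * n)), ((Perm.sign σ : ℤ) : ℝ) * (g σ * (a (σ (snd j)) * b (σ (fst j)))) =
      ∑ σ : Perm (Fin (2 * n)), -(((Perm.sign σ : ℤ) : ℝ) * (g σ * (a (σ (fst j)) * b (σ (snd j))))) := by
    rw [← Equiv.sum_comp (Equiv.mulRight (swap (fst j) (snd j)))]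
    refine Finset.sum_congr rfl fun σ _ => ?_
    simp only [Equiv.coe_mulRight]
    rw [hg, Perm.sign_mul, Perm.sign_swap hne]
    simp only [Perm.mul_apply, swap_apply_left, swap_apply_right]
    push_cast
    simp
  have e1 : ∀ σ : Perm (Fin (2 * n)), ((Perm.sign σ : ℤ) : ℝ) * (g σ * wd a b (σ (fst j)) (σ (snd j))) =
      ((Perm.sign σ : ℤ) : ℝ) * (g σ * (a (σ (fst j)) * b (σ (snd j)))) -
      ((Perm.sign σ : ℤ) : ℝ) * (g σ * (a (σ (snd j)) * b (σ (fst j)))) := by
    intro σ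
    unfold wd
    ring
  have e2 : ∀ σ : Perm (Fin (2 * n)), ((Perm.sign σ : ℤ) : ℝ) * (g σ * (2 * (a (σ (fst j)) * b (σ (snd j))))) =
      ((Perm.sign σ : ℤ) : ℝ) * (g σ * (a (σ (fst j)) * b (σ (snd j)))) +
      ((Perm.sign σ : ℤ) : ℝ) * (g σ * (a (σ (fst j)) * b (σ (snd j)))) := by
    intro σ
    ring
  rw [Finset.sum_congr rfl fun σ _ => e1 σ, Finset.sum_sub_distrib, key, Finset.sum_congr rfl fun σ _ => e2 σ,
    Finset.sum_add_distrib, Finset.sum_neg_distrib]
  ring

private theorem alt_simple_aux {n : ℕ} (x y : Fin n → (Fin (2 * n) → ℝ)) (A : Finset (Fin n)) :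
    ∑ σ : Perm (Fin (2 * n)), ((Perm.sign σ : ℤ) : ℝ) * ∏ i, wd (x i) (y i) (σ (fst i)) (σ (snd i)) =
      ∑ σ : Perm (Fin (2 * n)), ((Perm.sign σ : ℤ) : ℝ) * ∏ i, (if i ∈ A then
        2 * (x i (σ (fst i)) * y i (σ (snd i))) else wd (x i) (y i) (σ (fst i)) (σ (snd i))) := by
  induction A using Finset.induction_on with
  | empty => simp
  | insert j A hj ih =>
    rw [ih]
    have h1 : ∀ σ : Perm (Fin (2 * n)), ∏ i, (if i ∈ A then
        2 * (x i (σ (fst i)) * y i (σ (snd i))) else wd (x i) (y i) (σ (fst i)) (σ (snd i))) =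
        (∏ i ∈ univ.erase j, (if i ∈ A then
        2 * (x i (σ (fst i)) * y i (σ (snd i))) else wd (x i) (y i) (σ (fst i)) (σ (snd i)))) *
          wd (x j) (y j) (σ (fst j)) (σ (snd j)) := by
      intro σ
      rw [← Finset.prod_erase_mul _ _ (Finset.mem_univ j), if_neg hj]
    have h2 : ∀ σ : Perm (Fin (2 * n)), ∏ i, (if i ∈ insert j A then
        2 * (x i (σ (fst i)) * y i (σ (snd i))) else wd (x i) (y i) (σ (fst i)) (σ (snd i))) =
        (∏ i ∈ univ.erase j, (if i ∈ A then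
        2 * (x i (σ (fst i)) * y i (σ (snd i))) else wd (x i) (y i) (σ (fst i)) (σ (snd i)))) *
          (2 * (x j (σ (fst j)) * y j (σ (snd j)))) := by
      intro σ
      rw [← Finset.prod_erase_mul _ _ (Finset.mem_univ j), if_pos (Finset.mem_insert_self j A)]
      congr 1
      refine Finset.prod_congr rfl fun i hi => ?_
      have hij : i ≠ j := Finset.ne_of_mem_erase hi
      by_cases hA : i ∈ A
      · rw [if_pos hA, if_pos (Finset.mem_insert_of_mem hA)]
      · rw [if_neg hA, if_neg (by simp [hij, hA])]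
    simp only [h1, h2]
    refine swap_factor j (fun σ => ∏ i ∈ univ.erase j, (if i ∈ A then
        2 * (x i (σ (fst i)) * y i (σ (snd i))) else wd (x i) (y i) (σ (fst i)) (σ (snd i)))) ?_ (x j) (y j)
    intro σ
    refine Finset.prod_congr rfl fun i hi => ?_
    have hij : i ≠ j := Finset.ne_of_mem_erase hi
    have e1 : (σ * swap (fst j) (snd j)) (fst i) = σ (fst i) := by
      rw [Perm.mul_apply, swap_apply_of_ne_of_ne (fun h => hij (fst_inj.1 h)) (fst_ne_snd i j)]
    have e2 : (σ * swap (fst j) (snd j)) (snd i) = σ (snd i) := by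
      rw [Perm.mul_apply, swap_apply_of_ne_of_ne (fun h => fst_ne_snd j i h.symm) (fun h => hij (snd_inj.1 h))]
    rw [e1, e2]

/-- PROOF: `Finset.induction_on` on the set `A` of the factors already replaced: the sum is equal to
`∑ σ, sign σ * ∏ i, (if i ∈ A then 2 * (x i (σ (fst i)) * y i (σ (snd i))) else wd (x i) (y i) (σ (fst i)) (σ (snd i)))`;
the step is `swap_factor` with `g σ` the product of the factors `i ≠ j` (`fst_inj`, `snd_inj`, `fst_ne_snd`). Then
`A = univ` and `prod_mul_distrib`, `prod_const`. -/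
theorem alt_simple {n : ℕ} (x y : Fin n → (Fin (2 * n) → ℝ)) :
    ∑ σ : Perm (Fin (2 * n)), ((Perm.sign σ : ℤ) : ℝ) * ∏ i, wd (x i) (y i) (σ (fst i)) (σ (snd i)) =
      2 ^ n * ∑ σ : Perm (Fin (2 * n)), ((Perm.sign σ : ℤ) : ℝ) *
        ∏ i, (x i (σ (fst i)) * y i (σ (snd i))) := by
  rw [alt_simple_aux x y univ, Finset.mul_sum]
  refine Finset.sum_congr rfl fun σ _ => ?_
  simp only [Finset.mem_univ, if_true]
  rw [Finset.prod_mul_distrib, Finset.prod_const, Finset.card_univ, Fintype.card_fin]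
  ring

end H35R
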