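import Pool.Agent.Lib.H35R.D

/-! # H35R, chunk E2: the alternating sum is the determinant -/

set_option autoImplicit false

namespace H35R

open Finset Equiv Pool.Agent.H69Hopf

/-- The indices of `Fin (2 * n)` are the `fst i` and the `snd i`. PROOF: for example `Fintype.prod_equiv` with
`Fin n × Fin 2 ≃ Fin (2 * n)` (`finProdFinEquiv` and a cast), or induction on `n` with `Fin.prod_univ_succ`, or
`Finset.prod_union` for the disjoint images of `fst` and `snd` (`exists_fst_or_snd`, `fst_ne_snd`, `fst_inj`, `snd_inj`). -/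
theorem prod_two {n : ℕ} (F : Fin (2 * n) → ℝ) : ∏ k, F k = ∏ i : Fin n, (F (fst i) * F (snd i)) := by
  have hu : (Finset.univ : Finset (Fin (2 * n))) =
      (Finset.univ : Finset (Fin n)).image fst ∪ (Finset.univ : Finset (Fin n)).image snd := by
    ext k
    simp only [Finset.mem_univ, Finset.mem_union, Finset.mem_image, true_and, true_iff]
    obtain ⟨i, hi | hi⟩ := exists_fst_or_snd k
    · exact Or.inl ⟨i, hi.symm⟩
    · exact Or.inr ⟨i, hi.symm⟩
  have hd : Disjoint ((Finset.univ : Finset (Fin n)).image fst)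
      ((Finset.univ : Finset (Fin n)).image snd) := by
    rw [Finset.disjoint_left]
    intro k h1 h2
    obtain ⟨i, _, hi⟩ := Finset.mem_image.1 h1
    obtain ⟨j, _, hj⟩ := Finset.mem_image.1 h2
    exact fst_ne_snd i j (hi.trans hj.symm)
  rw [Finset.prod_mul_distrib, hu, Finset.prod_union hd,
    Finset.prod_image (fun i _ j _ h => fst_inj.1 h), Finset.prod_image (fun i _ j _ h => snd_inj.1 h)]

/-- PROOF: `Matrix.det_transpose`, `Matrix.det_apply'`, `prod_two`, `rows_fst`, `rows_snd`. -/
theorem alt_eq_det {n : ℕ} (x y : Fin n → (Fin (2 * n) → ℝ)) :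
    ∑ σ : Perm (Fin (2 * n)), ((Perm.sign σ : ℤ) : ℝ) * ∏ i, (x i (σ (fst i)) * y i (σ (snd i))) = Dd x y := by
  unfold Dd
  rw [← Matrix.det_transpose, Matrix.det_apply']
  refine Finset.sum_congr rfl fun σ _ => ?_
  congr 1
  have h := prod_two (fun k => (Matrix.of (rows x y)).transpose (σ k) k)
  rw [h]
  refine Finset.prod_congr rfl fun i _ => ?_
  simp only [Matrix.transpose_apply, Matrix.of_apply]
  rw [rows_fst, rows_snd]

end H35R
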