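import Pool.Agent.Lib.H35R.E1
import Pool.Agent.Lib.H35R.E2

/-! # H35R, chunk E3: the mixed Gauss-Bonnet form of sums of squares of simple two-forms -/

set_option autoImplicit false

namespace H35R

open Finset Equiv Pool.Agent.H69Hopf

/-- PROOF: in `mgb` write each product of sums over `s` as a sum over `f : Fin n → S` (`Finset.prod_univ_sum`,
`Fintype.piFinset_univ`), exchange the sums; for fixed `f` the double sum over `σ, τ` is
`(∏ c) * (∑ σ, sign σ * ∏ wd ..) ^ 2`; then `alt_simple`, `alt_eq_det` and `(2 ^ n) ^ 2 = 4 ^ n`. -/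
theorem mgb_sq {S : Type} [Fintype S] {n : ℕ} (c : Fin n → S → ℝ) (x y : S → (Fin (2 * n) → ℝ)) :
    mgb (fun i => sq (c i) x y) =
      4 ^ n * ∑ f : Fin n → S, (∏ i, c i (f i)) * Dd (fun i => x (f i)) (fun i => y (f i)) ^ 2 := by
  classical
  obtain ⟨A, hA⟩ : ∃ A : (Fin n → S) → Perm (Fin (2 * n)) → ℝ, ∀ f σ, A f σ =
      ((Perm.sign σ : ℤ) : ℝ) * ∏ i, wd (x (f i)) (y (f i)) (σ (fst i)) (σ (snd i)) := ⟨_, fun _ _ => rfl⟩
  have hsum : ∀ f, ∑ σ, A f σ = 2 ^ n * Dd (fun i => x (f i)) (fun i => y (f i)) := by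
    intro f
    rw [← alt_eq_det, ← alt_simple]
    exact Finset.sum_congr rfl fun σ _ => hA f σ
  have h1 : ∀ σ τ : Perm (Fin (2 * n)), ((Perm.sign σ : ℤ) : ℝ) * ((Perm.sign τ : ℤ) : ℝ) *
      ∏ i : Fin n, sq (c i) x y (σ (fst i)) (σ (snd i)) (τ (fst i)) (τ (snd i)) =
      ∑ f : Fin n → S, (∏ i, c i (f i)) * (A f σ * A f τ) := by
    intro σ τ
    unfold sq
    rw [Finset.prod_univ_sum, Fintype.piFinset_univ, Finset.mul_sum]
    refine Finset.sum_congr rfl fun f _ => ?_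
    rw [Finset.prod_mul_distrib, Finset.prod_mul_distrib, hA, hA]
    ring
  unfold mgb
  calc ∑ σ : Perm (Fin (2 * n)), ∑ τ : Perm (Fin (2 * n)),
        ((Perm.sign σ : ℤ) : ℝ) * ((Perm.sign τ : ℤ) : ℝ) *
          ∏ i : Fin n, sq (c i) x y (σ (fst i)) (σ (snd i)) (τ (fst i)) (τ (snd i))
      = ∑ σ : Perm (Fin (2 * n)), ∑ τ : Perm (Fin (2 * n)), ∑ f : Fin n → S,
          (∏ i, c i (f i)) * (A f σ * A f τ) :=
        Finset.sum_congr rfl fun σ _ => Finset.sum_congr rfl fun τ _ => h1 σ τ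
    _ = ∑ σ : Perm (Fin (2 * n)), ∑ f : Fin n → S, ∑ τ : Perm (Fin (2 * n)),
          (∏ i, c i (f i)) * (A f σ * A f τ) := Finset.sum_congr rfl fun σ _ => Finset.sum_comm
    _ = ∑ f : Fin n → S, ∑ σ : Perm (Fin (2 * n)), ∑ τ : Perm (Fin (2 * n)),
          (∏ i, c i (f i)) * (A f σ * A f τ) := Finset.sum_comm
    _ = ∑ f : Fin n → S, 4 ^ n * ((∏ i, c i (f i)) * Dd (fun i => x (f i)) (fun i => y (f i)) ^ 2) := by
        refine Finset.sum_congr rfl fun f _ => ?_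
        have h2 : ∑ σ : Perm (Fin (2 * n)), ∑ τ : Perm (Fin (2 * n)), (∏ i, c i (f i)) * (A f σ * A f τ) =
            (∏ i, c i (f i)) * ((∑ σ, A f σ) * ∑ τ, A f τ) := by
          rw [Finset.sum_mul_sum, Finset.mul_sum]
          exact Finset.sum_congr rfl fun σ _ => by rw [Finset.mul_sum]
        have h3 : (4 : ℝ) ^ n = 2 ^ n * 2 ^ n := by
          rw [← mul_pow]
          norm_num
        rw [h2, hsum, h3]
        ring
    _ = 4 ^ n * ∑ f : Fin n → S, (∏ i, c i (f i)) * Dd (fun i => x (f i)) (fun i => y (f i)) ^ 2 := by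
        rw [Finset.mul_sum]

end H35R
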