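import Pool.Agent.Lib.H35R.E0
import Pool.Agent.Lib.H35R.E3

/-! # H35R, chunk E10: positivity -/

set_option autoImplicit false

namespace H35R

open Finset Equiv Pool.Agent.H69Hopf

private theorem e10_sum {n : ℕ} (g : Fin (2 * n) → ℝ) : ∑ k, g k = ∑ i : Fin n, (g (fst i) + g (snd i)) := by
  classical
  have h1 : (univ : Finset (Fin (2 * n))) = univ.image (fst (n := n)) ∪ univ.image (snd (n := n)) := by
    ext k
    simp only [mem_univ, mem_union, mem_image, true_and, true_iff]
    obtain ⟨i, hi | hi⟩ := exists_fst_or_snd k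
    · exact Or.inl ⟨i, hi.symm⟩
    · exact Or.inr ⟨i, hi.symm⟩
  have h2 : Disjoint (univ.image (fst (n := n))) (univ.image (snd (n := n))) := by
    rw [Finset.disjoint_left]
    intro k hk hk'
    obtain ⟨i, -, hi⟩ := Finset.mem_image.1 hk
    obtain ⟨j, -, hj⟩ := Finset.mem_image.1 hk'
    exact fst_ne_snd i j (hi.trans hj.symm)
  rw [h1, Finset.sum_union h2, Finset.sum_image (fun i _ j _ hij => fst_inj.1 hij),
    Finset.sum_image (fun i _ j _ hij => snd_inj.1 hij), Finset.sum_add_distrib]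

/-- Linear independence of the rows, in explicit form. -/
private def LI {S : Type} {N m : ℕ} (x y : S → (Fin N → ℝ)) (f : Fin m → S) : Prop :=
  ∀ a b : Fin m → ℝ, (∀ j, ∑ i, (a i * x (f i) j + b i * y (f i) j) = 0) → ∀ i, a i = 0 ∧ b i = 0

private theorem e10_ker {S : Type} {N m : ℕ} (x y : S → (Fin N → ℝ)) (f : Fin m → S) (h : 2 * m + 2 ≤ N) :
    ∃ u v : Fin N → ℝ, LinearIndependent ℝ ![u, v] ∧ (∀ i, ∑ j, x (f i) j * u j = 0) ∧
      (∀ i, ∑ j, y (f i) j * u j = 0) ∧ (∀ i, ∑ j, x (f i) j * v j = 0) ∧ (∀ i, ∑ j, y (f i) j * v j = 0) := by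
  set M : Matrix (Fin m ⊕ Fin m) (Fin N) ℝ :=
    Matrix.of (fun p j => Sum.elim (fun i => x (f i) j) (fun i => y (f i) j) p) with hM
  have h1 := LinearMap.finrank_range_add_finrank_ker M.mulVecLin
  have h2 : Module.finrank ℝ (LinearMap.range M.mulVecLin) ≤ 2 * m := by
    refine (Submodule.finrank_le _).trans (le_of_eq ?_)
    rw [Module.finrank_fintype_fun_eq_card, Fintype.card_sum, Fintype.card_fin]
    ring
  rw [Module.finrank_fintype_fun_eq_card, Fintype.card_fin] at h1
  have h3 : 1 < Module.finrank ℝ (LinearMap.ker M.mulVecLin) := by omega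
  have h4 : Nontrivial (LinearMap.ker M.mulVecLin) := Module.nontrivial_of_finrank_pos (R := ℝ) (by omega)
  obtain ⟨u, hu⟩ := exists_ne (0 : LinearMap.ker M.mulVecLin)
  obtain ⟨v, hv⟩ := exists_linearIndependent_pair_of_one_lt_finrank h3 hu
  have hk : ∀ w : LinearMap.ker M.mulVecLin, ∀ p, ∑ j, M p j * w.1 j = 0 := by
    intro w p
    have h5 : M.mulVecLin w.1 = 0 := w.2
    rw [Matrix.mulVecLin_apply] at h5
    exact congrFun h5 p
  refine ⟨u.1, v.1, ?_, fun i => hk u (Sum.inl i), fun i => hk u (Sum.inr i), fun i => hk v (Sum.inl i),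
    fun i => hk v (Sum.inr i)⟩
  have h6 := hv.map' (LinearMap.ker M.mulVecLin).subtype (Submodule.ker_subtype _)
  have h7 : (⇑(LinearMap.ker M.mulVecLin).subtype ∘ ![u, v]) = ![u.1, v.1] := by
    funext i
    fin_cases i <;> rfl
  rw [h7] at h6
  exact h6

private theorem e10_step {S : Type} [Fintype S] {N m : ℕ} (α : S → ℝ) (hα : ∀ s, 0 ≤ α s) (x y : S → (Fin N → ℝ))
    (h : ∀ u v, LinearIndependent ℝ ![u, v] → 0 < ev (sq α x y) u v u v) (f : Fin m → S) (hf : LI x y f)
    (hm : 2 * m + 2 ≤ N) : ∃ s, 0 < α s ∧ LI x y (Fin.cons s f : Fin (m + 1) → S) := by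
  obtain ⟨u, v, huv, hxu, hyu, hxv, hyv⟩ := e10_ker x y f hm
  have h1 := h u v huv
  rw [ev_sq] at h1
  have h2 : ∃ s, 0 < α s * ((∑ i, x s i * u i) * (∑ i, y s i * v i) -
      (∑ i, x s i * v i) * (∑ i, y s i * u i)) ^ 2 := by
    by_contra hcon
    push Not at hcon
    exact absurd (Finset.sum_nonpos fun s _ => hcon s) (not_le.2 h1)
  obtain ⟨s, hs⟩ := h2
  have hs1 : 0 < α s := by
    rcases (hα s).lt_or_eq with h3 | h3
    · exact h3
    · rw [← h3, zero_mul] at hs
      exact absurd hs (lt_irrefl _)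
  have hs2 : (∑ i, x s i * u i) * (∑ i, y s i * v i) - (∑ i, x s i * v i) * (∑ i, y s i * u i) ≠ 0 := by
    intro h3
    rw [h3] at hs
    simp at hs
  refine ⟨s, hs1, ?_⟩
  intro a b hab
  have key : ∀ w : Fin N → ℝ, (∀ i, ∑ j, x (f i) j * w j = 0) → (∀ i, ∑ j, y (f i) j * w j = 0) →
      a 0 * (∑ j, x s j * w j) + b 0 * (∑ j, y s j * w j) = 0 := by
    intro w hxw hyw
    have h3 : ∑ j, (∑ i : Fin (m + 1), (a i * x ((Fin.cons s f : Fin (m + 1) → S) i) j +
        b i * y ((Fin.cons s f : Fin (m + 1) → S) i) j)) * w j = 0 :=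
      Finset.sum_eq_zero fun j _ => by rw [hab j, zero_mul]
    have h4 : ∀ j, (∑ i : Fin (m + 1), (a i * x ((Fin.cons s f : Fin (m + 1) → S) i) j +
        b i * y ((Fin.cons s f : Fin (m + 1) → S) i) j)) * w j =
        (a 0 * (x s j * w j) + b 0 * (y s j * w j)) +
          ∑ i : Fin m, (a i.succ * (x (f i) j * w j) + b i.succ * (y (f i) j * w j)) := by
      intro j
      rw [Fin.sum_univ_succ, add_mul, Finset.sum_mul]
      simp only [Fin.cons_zero, Fin.cons_succ]
      congr 1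
      · ring
      · refine Finset.sum_congr rfl fun i _ => ?_
        ring
    rw [Finset.sum_congr rfl fun j _ => h4 j, Finset.sum_add_distrib, Finset.sum_add_distrib,
      ← Finset.mul_sum, ← Finset.mul_sum, Finset.sum_comm] at h3
    have h5 : ∑ i : Fin m, ∑ j, (a i.succ * (x (f i) j * w j) + b i.succ * (y (f i) j * w j)) = 0 := by
      refine Finset.sum_eq_zero fun i _ => ?_
      rw [Finset.sum_add_distrib, ← Finset.mul_sum, ← Finset.mul_sum, hxw i, hyw i]
      ring
    rw [h5, add_zero] at h3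
    exact h3
  have k1 := key u hxu hyu
  have k2 := key v hxv hyv
  have ha : a 0 = 0 := by
    have h3 : a 0 * ((∑ i, x s i * u i) * (∑ i, y s i * v i) - (∑ i, x s i * v i) * (∑ i, y s i * u i)) = 0 := by
      linear_combination (∑ i, y s i * v i) * k1 - (∑ i, y s i * u i) * k2
    exact (mul_eq_zero.1 h3).resolve_right hs2
  have hb : b 0 = 0 := by
    have h3 : b 0 * ((∑ i, x s i * u i) * (∑ i, y s i * v i) - (∑ i, x s i * v i) * (∑ i, y s i * u i)) = 0 := by
      linear_combination (∑ i, x s i * u i) * k2 - (∑ i, x s i * v i) * k1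
    exact (mul_eq_zero.1 h3).resolve_right hs2
  have hrest := hf (fun i => a i.succ) (fun i => b i.succ) (by
    intro j
    have h3 := hab j
    rw [Fin.sum_univ_succ, ha, hb] at h3
    simp only [Fin.cons_succ, zero_mul, zero_add] at h3
    exact h3)
  intro i
  refine Fin.cases ?_ (fun i => ?_) i
  · exact ⟨ha, hb⟩
  · exact hrest i

private theorem e10_exists {S : Type} [Fintype S] {N : ℕ} (α : S → ℝ) (hα : ∀ s, 0 ≤ α s) (x y : S → (Fin N → ℝ))
    (h : ∀ u v, LinearIndependent ℝ ![u, v] → 0 < ev (sq α x y) u v u v) (m : ℕ) (hm : 2 * m ≤ N) :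
    ∃ f : Fin m → S, (∀ i, 0 < α (f i)) ∧ LI x y f := by
  induction m with
  | zero => exact ⟨fun i => i.elim0, fun i => i.elim0, fun a b _ i => i.elim0⟩
  | succ m ih =>
    obtain ⟨f, hf1, hf2⟩ := ih (by omega)
    obtain ⟨s, hs, hs2⟩ := e10_step α hα x y h f hf2 (by omega)
    refine ⟨Fin.cons s f, ?_, hs2⟩
    intro i
    refine Fin.cases ?_ (fun i => ?_) i
    · rw [Fin.cons_zero]
      exact hs
    · rw [Fin.cons_succ]
      exact hf1 i

private theorem e10_det {S : Type} {n : ℕ} (x y : S → (Fin (2 * n) → ℝ)) (f : Fin n → S) (hf : LI x y f) :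
    Dd (fun i => x (f i)) (fun i => y (f i)) ≠ 0 := by
  intro h0
  unfold Dd at h0
  rw [← Matrix.exists_vecMul_eq_zero_iff] at h0
  obtain ⟨v, hv, hv0⟩ := h0
  apply hv
  have h1 := hf (fun i => v (fst i)) (fun i => v (snd i)) (by
    intro j
    have h2 := congrFun hv0 j
    have h3 : ∑ k, v k * rows (fun i => x (f i)) (fun i => y (f i)) k j = 0 := h2
    rw [e10_sum] at h3
    simp only [rows_fst, rows_snd] at h3
    exact h3)
  funext k
  obtain ⟨i, hi | hi⟩ := exists_fst_or_snd k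
  · rw [hi]
    exact (h1 i).1
  · rw [hi]
    exact (h1 i).2

/-- PROOF: `mgb_sq`: it is enough to find `f` with `α (f i) > 0` for all `i` and `Dd ≠ 0`, that is linearly independent rows.
By induction on `m ≤ n` there is `f : Fin m → S` with `α (f i) > 0` and linearly independent family of the `2 m` vectors
`x (f i)`, `y (f i)` (index type `Fin m × Bool` or `Fin m ⊕ Fin m` or a list): the common kernel
`{u | ∀ i, x (f i) . u = 0 ∧ y (f i) . u = 0}` has dimension `≥ 2 n - 2 m ≥ 2`, so it contains linearly independent `u, v`, and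
by `ev_sq` some `s` has `α s > 0` and `(x s . u)(y s . v) - (x s . v)(y s . u) ≠ 0`; then `x s`, `y s` can be added (a linear
relation, evaluated at `u` and `v`, has coefficients `0` at `x s`, `y s`). -/
theorem mgb_pos {S : Type} [Fintype S] {n : ℕ} (α : S → ℝ) (hα : ∀ s, 0 ≤ α s) (x y : S → (Fin (2 * n) → ℝ))
    (h : ∀ u v, LinearIndependent ℝ ![u, v] → 0 < ev (sq α x y) u v u v) :
    0 < mgb (fun _ : Fin n => sq α x y) := by
  obtain ⟨f, hf1, hf2⟩ := e10_exists α hα x y h n le_rfl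
  rw [mgb_sq (fun _ => α) x y]
  refine mul_pos (by positivity) ?_
  refine Finset.sum_pos' (fun g _ => mul_nonneg (Finset.prod_nonneg fun i _ => hα _) (sq_nonneg _))
    ⟨f, Finset.mem_univ _, ?_⟩
  exact mul_pos (Finset.prod_pos fun i _ => hf1 i) (lt_of_le_of_ne (sq_nonneg _) (Ne.symm (pow_ne_zero 2 (e10_det x y f hf2))))

end H35R
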