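import Mathlib

/-! # H35R, chunk E4: restriction of a determinant to a subspace -/

set_option autoImplicit false

namespace H35R

open Finset

/-- The determinant with some rows fixed is, as a function of the other `k` rows, a determinant of size `k`.
PROOF: write `M u` for the matrix on the left. If all `det (M u)` are `0` take `g = 0` (`k > 0`, `Matrix.det_zero`).
Otherwise fix `u0` with `d = det (M u0) ≠ 0` and put `K u = M u * (M u0)⁻¹`, so `det (M u) = det (K u) * d`. For `i` not in
the range of `e` the `i`-th row of `M u` is that of `M u0`, so row `i` of `K u` is row `i` of `1`. Let `p i` be `i ∈ range e`;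
`Matrix.twoBlockTriangular_det` (hypothesis: `¬ p i → p j → K i j = 0`) gives `det (K u) =
det (block p) * det (block ¬ p)` and the second block is `1`; the first one, reindexed with `Equiv.ofInjective e`
(`Matrix.det_submatrix_equiv_self`), has the entries `∑ i, u a i * (M u0)⁻¹ i (e b)`. Absorb `d` in the column `b = 0`:
`g b i = (if b = 0 then d else 1) * (M u0)⁻¹ i (e b)` (`Matrix.det_mul` with `Matrix.diagonal`, or
`Matrix.det_mul_column`). -/
theorem restrict {N k : ℕ} (hk : 0 < k) (e : Fin k → Fin N) (he : Function.Injective e)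
    (v : Fin N → (Fin N → ℝ)) : ∃ g : Fin k → (Fin N → ℝ), ∀ u : Fin k → (Fin N → ℝ),
      Matrix.det (Matrix.of (Function.extend e u v)) = Matrix.det (Matrix.of fun a b => ∑ i, u a i * g b i) := by
  classical
  set M : (Fin k → (Fin N → ℝ)) → Matrix (Fin N) (Fin N) ℝ :=
    fun u => Matrix.of (Function.extend e u v) with hM
  have hin : ∀ u a l, M u (e a) l = u a l := fun u a l => by
    simp only [hM, Matrix.of_apply, he.extend_apply]
  have hout : ∀ u i l, i ∉ Set.range e → M u i l = v i l := fun u i l hi => by
    have hi' : ¬ ∃ a, e a = i := fun h => hi h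
    simp only [hM, Matrix.of_apply, Function.extend_apply' _ _ _ hi']
  by_cases h : ∀ u, Matrix.det (M u) = 0
  · refine ⟨fun _ _ => 0, fun u => ?_⟩
    have e1 : (Matrix.of fun a b : Fin k => ∑ i, u a i * (0 : ℝ)) = (0 : Matrix (Fin k) (Fin k) ℝ) := by
      ext a b
      simp
    haveI : Nonempty (Fin k) := ⟨⟨0, hk⟩⟩
    rw [e1, Matrix.det_zero]
    exact h u
  · push Not at h
    obtain ⟨u0, h0⟩ := h
    set d := Matrix.det (M u0) with hd
    set A := (M u0)⁻¹ with hA
    have hu : IsUnit (M u0).det := isUnit_iff_ne_zero.2 h0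
    have hMA : M u0 * A = 1 := Matrix.mul_nonsing_inv _ hu
    have hAM : A * M u0 = 1 := Matrix.nonsing_inv_mul _ hu
    refine ⟨fun b i => (if b = ⟨0, hk⟩ then d else 1) * A i (e b), fun u => ?_⟩
    set K := M u * A with hK
    have hKM : K * M u0 = M u := by rw [hK, Matrix.mul_assoc, hAM, Matrix.mul_one]
    have hdet : (M u).det = K.det * d := by rw [← hKM, Matrix.det_mul]
    have hrow : ∀ i, i ∉ Set.range e → ∀ j, K i j = (1 : Matrix (Fin N) (Fin N) ℝ) i j := by
      intro i hi j
      rw [← hMA, hK, Matrix.mul_apply, Matrix.mul_apply]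
      refine Finset.sum_congr rfl fun l _ => ?_
      rw [hout u i l hi, hout u0 i l hi]
    have hblock := Matrix.twoBlockTriangular_det K (fun i => i ∈ Set.range e) (fun i hi j hj => by
      rw [hrow i hi j, Matrix.one_apply_ne]
      rintro rfl
      exact hi hj)
    have h2 : (K.toSquareBlockProp fun i => ¬ i ∈ Set.range e).det = 1 := by
      have e2 : (K.toSquareBlockProp fun i => ¬ i ∈ Set.range e) = 1 := by
        ext i j
        rw [Matrix.toSquareBlockProp_def, Matrix.of_apply, hrow i.1 i.2 j.1, Matrix.one_apply,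
          Matrix.one_apply]
        simp only [Subtype.ext_iff]
      rw [e2, Matrix.det_one]
    have h1 : (K.toSquareBlockProp fun i => i ∈ Set.range e).det =
        Matrix.det (Matrix.of fun a b : Fin k => ∑ i, u a i * A i (e b)) := by
      rw [← Matrix.det_submatrix_equiv_self (Equiv.ofInjective e he)]
      congr 1
      ext a b
      rw [Matrix.submatrix_apply, Matrix.toSquareBlockProp_def, Matrix.of_apply, Matrix.of_apply]
      simp only [Equiv.ofInjective_apply]
      rw [hK, Matrix.mul_apply]
      exact Finset.sum_congr rfl fun l _ => by rw [hin]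
    have h3 : Matrix.det (Matrix.of fun a b : Fin k =>
        ∑ i, u a i * ((if b = ⟨0, hk⟩ then d else 1) * A i (e b))) =
        d * Matrix.det (Matrix.of fun a b : Fin k => ∑ i, u a i * A i (e b)) := by
      have e3 := Matrix.det_mul_row (fun b : Fin k => if b = ⟨0, hk⟩ then d else 1)
        (Matrix.of fun a b : Fin k => ∑ i, u a i * A i (e b))
      rw [Finset.prod_ite_eq' Finset.univ (⟨0, hk⟩ : Fin k) (fun _ => d)] at e3
      rw [if_pos (Finset.mem_univ _)] at e3
      rw [← e3]
      congr 1
      ext a b
      rw [Matrix.of_apply, Matrix.of_apply, Matrix.of_apply, Finset.mul_sum]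
      exact Finset.sum_congr rfl fun l _ => by ring
    rw [h3, ← h1, hdet, hblock, h2, mul_one, mul_comm]
    refine congrArg (fun z => d * z) ?_
    have key : ∀ (d1 d2 : DecidableEq {i : Fin N // i ∈ Set.range e}) (i1 i2 : Fintype {i : Fin N // i ∈ Set.range e}),
        @Matrix.det _ d1 i1 ℝ _ (K.toSquareBlockProp fun i => i ∈ Set.range e) =
          @Matrix.det _ d2 i2 ℝ _ (K.toSquareBlockProp fun i => i ∈ Set.range e) := by
      intro d1 d2 i1 i2
      rw [Subsingleton.elim i1 i2, Subsingleton.elim d1 d2]
    exact key _ _ _ _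

end H35R
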