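import Pool.Agent.Lib.H35R.E0
import Pool.Agent.Lib.H35R.E3
import Pool.Agent.Lib.H35R.E4

/-! # H35R, chunk E5: comparison of one factor -/

set_option autoImplicit false

namespace H35R

open Finset Equiv Pool.Agent.H69Hopf

/-- the sum over the functions on `Fin (m + 1)`. -/
theorem e5_sum {S : Type} [Fintype S] {m : ℕ} (F : (Fin (m + 1) → S) → ℝ) :
    ∑ f : Fin (m + 1) → S, F f = ∑ f' : Fin m → S, ∑ s : S, F (Fin.cons (α := fun _ => S) s f') := by
  rw [Finset.sum_comm]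
  rw [← Fintype.sum_prod_type']
  exact (Fintype.sum_equiv (Fin.consEquiv (fun _ : Fin (m + 1) => S)) _ _ (fun q => rfl)).symm

theorem e5_rows {S : Type} {m : ℕ} {V : Type} (x y : S → V) (s : S) (f' : Fin m → S) (k : Fin (2 * (m + 1)))
    (a b : V) (hk : 2 ≤ k.1) :
    rows (Fin.cons (α := fun _ => V) a (fun i => x (f' i))) (Fin.cons (α := fun _ => V) b (fun i => y (f' i))) k =
      rows (fun i => x ((Fin.cons (α := fun _ => S) s f' : Fin (m + 1) → S) i))
        (fun i => y ((Fin.cons (α := fun _ => S) s f' : Fin (m + 1) → S) i)) k := by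
  unfold rows
  have hk2 : k.1 / 2 < m + 1 := by omega
  obtain ⟨q, hq⟩ : ∃ q, k.1 / 2 = q + 1 := ⟨k.1 / 2 - 1, by omega⟩
  have hqm : q < m := by omega
  have e : (⟨k.1 / 2, hk2⟩ : Fin (m + 1)) = Fin.succ ⟨q, hqm⟩ := by
    apply Fin.ext
    rw [Fin.val_succ]
    exact hq
  rw [e]
  simp only [Fin.cons_succ]

theorem e5_det {S : Type} {m : ℕ} (x y : S → (Fin (2 * (m + 1)) → ℝ)) (f' : Fin m → S) :
    ∃ u v : Fin (2 * (m + 1)) → ℝ, ∀ s,
      Dd (fun i => x ((Fin.cons (α := fun _ => S) s f' : Fin (m + 1) → S) i))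
        (fun i => y ((Fin.cons (α := fun _ => S) s f' : Fin (m + 1) → S) i)) =
      (∑ i, x s i * u i) * (∑ i, y s i * v i) - (∑ i, x s i * v i) * (∑ i, y s i * u i) := by
  let e : Fin 2 → Fin (2 * (m + 1)) := ![⟨0, by omega⟩, ⟨1, by omega⟩]
  have hev : ∀ a, (e a).1 = a.1 := by
    intro a
    fin_cases a <;> rfl
  have he : Function.Injective e := by
    intro a b hab
    apply Fin.ext
    rw [← hev a, ← hev b, hab]
  obtain ⟨g, hg⟩ := restrict (by norm_num) e he
    (rows (Fin.cons (α := fun _ => Fin (2 * (m + 1)) → ℝ) 0 (fun i => x (f' i)))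
      (Fin.cons (α := fun _ => Fin (2 * (m + 1)) → ℝ) 0 (fun i => y (f' i))))
  refine ⟨g 0, g 1, fun s => ?_⟩
  have h1 := hg ![x s, y s]
  rw [Matrix.det_fin_two] at h1
  simp only [Matrix.of_apply, Matrix.cons_val_zero, Matrix.cons_val_one] at h1
  rw [← h1, Dd]
  congr 2
  funext k
  by_cases hk : 2 ≤ k.1
  · rw [Function.extend_apply']
    · exact (e5_rows x y s f' k 0 0 hk).symm
    · rintro ⟨a, ha⟩
      have h2 := congrArg Fin.val ha
      rw [hev] at h2
      have h3 := a.isLt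
      omega
  · have h3 : k.1 = 0 ∨ k.1 = 1 := by omega
    rcases h3 with h3 | h3
    · have hk0 : k = e 0 := Fin.ext h3
      have hk1 : e 0 = fst 0 := Fin.ext rfl
      rw [hk0, he.extend_apply, hk1, rows_fst]
      rfl
    · have hk0 : k = e 1 := Fin.ext h3
      have hk1 : e 1 = snd 0 := Fin.ext rfl
      rw [hk0, he.extend_apply, hk1, rows_snd]
      rfl

/-- the form of the sum of squares. -/
theorem e5_mgb {S : Type} [Fintype S] {m : ℕ} (β : S → ℝ) (x y : S → (Fin (2 * (m + 1)) → ℝ)) (c : Fin m → S → ℝ) :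
    mgb (m := m + 1) (Fin.cons (α := fun _ => Arr (2 * (m + 1))) (sq β x y) fun i => sq (c i) x y) =
      4 ^ (m + 1) * ∑ f' : Fin m → S, (∏ i, c i (f' i)) * ∑ s, β s *
        Dd (fun i => x ((Fin.cons (α := fun _ => S) s f' : Fin (m + 1) → S) i))
          (fun i => y ((Fin.cons (α := fun _ => S) s f' : Fin (m + 1) → S) i)) ^ 2 := by
  have h1 : (Fin.cons (α := fun _ => Arr (2 * (m + 1))) (sq β x y) fun i => sq (c i) x y) =
      fun i : Fin (m + 1) => sq ((Fin.cons (α := fun _ => S → ℝ) β c : Fin (m + 1) → S → ℝ) i) x y := by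
    funext i
    refine Fin.cases ?_ (fun i => ?_) i
    · rfl
    · rfl
  rw [h1, mgb_sq, e5_sum]
  congr 1
  refine Finset.sum_congr rfl fun f' _ => ?_
  rw [Finset.mul_sum]
  refine Finset.sum_congr rfl fun s _ => ?_
  rw [Fin.prod_univ_succ]
  simp only [Fin.cons_zero, Fin.cons_succ]
  ring

/-- PROOF: by `mgb_sq` (the family `Fin.cons (sq β x y) (fun i => sq (c i) x y)` is `fun i => sq (Fin.cons β c i) x y`, use
`Fin.cases`) both sides are `4 ^ (m+1)` times sums over `f : Fin (m+1) → S`, that is over `s = f 0` and `f' = tail f`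
(`Fin.consEquiv` or `Fin.insertNthEquiv`, `Fin.prod_univ_succ`). For fixed `f'` it is enough that
`∑ s, β s * D(s, f') ^ 2 ≤ ε * ∑ s, α s * D(s, f') ^ 2`. `restrict` with `k = 2`, `e = ![fst 0, snd 0]` and the rows
`rows (x of f', y of f')` (anything in the first two) gives `g` with `D(s, f') = (x s . g 0)(y s . g 1) - (x s . g 1)(y s . g 0)`
(`Matrix.det_fin_two`), and `ev_sq` with `u = g 0`, `v = g 1` turns `h` into the claim. -/
theorem dec {S : Type} [Fintype S] {m : ℕ} (α β : S → ℝ) (x y : S → (Fin (2 * (m + 1)) → ℝ)) (ε : ℝ)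
    (h : ∀ u v, ev (sq β x y) u v u v ≤ ε * ev (sq α x y) u v u v) (c : Fin m → S → ℝ) (hc : ∀ i s, 0 ≤ c i s) :
    mgb (m := m + 1) (Fin.cons (α := fun _ => Arr (2 * (m + 1))) (sq β x y) fun i => sq (c i) x y) ≤
      ε * mgb (m := m + 1) (Fin.cons (α := fun _ => Arr (2 * (m + 1))) (sq α x y) fun i => sq (c i) x y) := by
  rw [e5_mgb, e5_mgb]
  have key : ∑ f' : Fin m → S, (∏ i, c i (f' i)) * ∑ s, β s *
        Dd (fun i => x ((Fin.cons (α := fun _ => S) s f' : Fin (m + 1) → S) i))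
          (fun i => y ((Fin.cons (α := fun _ => S) s f' : Fin (m + 1) → S) i)) ^ 2 ≤
      ε * ∑ f' : Fin m → S, (∏ i, c i (f' i)) * ∑ s, α s *
        Dd (fun i => x ((Fin.cons (α := fun _ => S) s f' : Fin (m + 1) → S) i))
          (fun i => y ((Fin.cons (α := fun _ => S) s f' : Fin (m + 1) → S) i)) ^ 2 := by
    rw [Finset.mul_sum]
    refine Finset.sum_le_sum fun f' _ => ?_
    obtain ⟨u, v, huv⟩ := e5_det x y f'
    have h1 := h u v
    rw [ev_sq, ev_sq] at h1
    simp only [huv]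
    have h2 : 0 ≤ ∏ i, c i (f' i) := Finset.prod_nonneg fun i _ => hc i _
    calc _ ≤ (∏ i, c i (f' i)) * (ε * ∑ s, α s *
          ((∑ i, x s i * u i) * (∑ i, y s i * v i) - (∑ i, x s i * v i) * (∑ i, y s i * u i)) ^ 2) :=
          mul_le_mul_of_nonneg_left h1 h2
      _ = _ := by ring
  calc _ ≤ (4 : ℝ) ^ (m + 1) * _ := mul_le_mul_of_nonneg_left key (by positivity)
    _ = _ := by ring

end H35R
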