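import Pool.Agent.Lib.H35R.E0
import Pool.Agent.Lib.H35R.E3
import Pool.Agent.Lib.H35R.E4
import Pool.Agent.Lib.H69.Hopf.Milnor

/-! # H35R, chunk E6: two equal factors, by Milnor's theorem in dimension 4 -/

set_option autoImplicit false

namespace H35R

open Finset Equiv Pool.Agent.H69Hopf

private theorem sum_cons {S : Type} [Fintype S] {k : ℕ} (F : (Fin (k + 1) → S) → ℝ) :
    ∑ f, F f = ∑ s, ∑ f' : Fin k → S, F (Fin.cons s f') := by
  rw [← (Fin.consEquiv fun _ : Fin (k + 1) => S).sum_comp, Fintype.sum_prod_type]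
  rfl

private theorem comm3 {S F : Type} [Fintype S] [Fintype F] (w : F → ℝ) (G : S → S → F → ℝ) :
    ∑ s, ∑ s', ∑ f, w f * G s s' f = ∑ f, w f * ∑ s, ∑ s', G s s' f := by
  calc ∑ s, ∑ s', ∑ f, w f * G s s' f = ∑ s, ∑ f, ∑ s', w f * G s s' f :=
        Finset.sum_congr rfl fun s _ => Finset.sum_comm
    _ = ∑ f, ∑ s, ∑ s', w f * G s s' f := Finset.sum_comm
    _ = ∑ f, w f * ∑ s, ∑ s', G s s' f := by
        refine Finset.sum_congr rfl fun f _ => ?_
        simp only [Finset.mul_sum]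

private theorem fam {S : Type} [Fintype S] {m : ℕ} (γ : S → ℝ)
    (x y : S → (Fin (2 * (m + 2)) → ℝ)) (c : Fin m → S → ℝ) :
    (Fin.cons (α := fun _ => Arr (2 * (m + 2))) (sq γ x y)
      (Fin.cons (α := fun _ => Arr (2 * (m + 2))) (sq γ x y) fun i => sq (c i) x y) :
      Fin (m + 2) → Arr (2 * (m + 2))) =
    fun i => sq ((Fin.cons γ (Fin.cons γ c : Fin (m + 1) → S → ℝ) : Fin (m + 2) → S → ℝ) i) x y := by
  funext i
  refine Fin.cases ?_ (fun j => ?_) i
  · rfl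
  · refine Fin.cases ?_ (fun j' => ?_) j
    · rfl
    · rfl

private theorem cons_two {S V : Type} [Zero V] {m : ℕ} (x : S → V) (s s' : S) (f : Fin m → S)
    (i : Fin (m + 2)) (hi : 2 ≤ i.1) :
    x ((Fin.cons s (Fin.cons s' f : Fin (m + 1) → S) : Fin (m + 2) → S) i) =
      (Fin.cons 0 (Fin.cons 0 (fun i => x (f i)) : Fin (m + 1) → V) : Fin (m + 2) → V) i := by
  revert hi
  refine Fin.cases ?_ (fun j => ?_) i
  · intro h
    exact absurd h (by simp)
  · refine Fin.cases ?_ (fun j' => ?_) j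
    · intro h
      exact absurd h (by simp)
    · intro _
      rfl

private def ee (m : ℕ) (a : Fin 4) : Fin (2 * (m + 2)) := ⟨a.1, by omega⟩

private theorem ee_inj (m : ℕ) : Function.Injective (ee m) := by
  intro a b h
  have := congrArg Fin.val h
  exact Fin.ext this

private theorem rows_ext {S : Type} {m : ℕ} (x y : S → (Fin (2 * (m + 2)) → ℝ)) (s s' : S)
    (f : Fin m → S) :
    rows (fun i => x ((Fin.cons s (Fin.cons s' f : Fin (m + 1) → S) : Fin (m + 2) → S) i))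
      (fun i => y ((Fin.cons s (Fin.cons s' f : Fin (m + 1) → S) : Fin (m + 2) → S) i)) =
    Function.extend (ee m) ![x s, y s, x s', y s']
      (rows (Fin.cons 0 (Fin.cons 0 fun i => x (f i) : Fin (m + 1) → (Fin (2 * (m + 2)) → ℝ)) :
          Fin (m + 2) → (Fin (2 * (m + 2)) → ℝ))
        (Fin.cons 0 (Fin.cons 0 fun i => y (f i) : Fin (m + 1) → (Fin (2 * (m + 2)) → ℝ)) :
          Fin (m + 2) → (Fin (2 * (m + 2)) → ℝ))) := by
  funext k
  by_cases hk : k.1 < 4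
  · have hke : k = ee m ⟨k.1, hk⟩ := rfl
    have h1 : Function.extend (ee m) ![x s, y s, x s', y s']
      (rows (Fin.cons 0 (Fin.cons 0 fun i => x (f i) : Fin (m + 1) → (Fin (2 * (m + 2)) → ℝ)) :
          Fin (m + 2) → (Fin (2 * (m + 2)) → ℝ))
        (Fin.cons 0 (Fin.cons 0 fun i => y (f i) : Fin (m + 1) → (Fin (2 * (m + 2)) → ℝ)) :
          Fin (m + 2) → (Fin (2 * (m + 2)) → ℝ))) k =
        (![x s, y s, x s', y s'] : Fin 4 → (Fin (2 * (m + 2)) → ℝ)) ⟨k.1, hk⟩ := by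
      conv_lhs => rw [hke]
      exact (ee_inj m).extend_apply _ _ _
    rw [h1]
    obtain ⟨k, hk2⟩ := k
    simp only at hk
    have h4 : k = 0 ∨ k = 1 ∨ k = 2 ∨ k = 3 := by omega
    rcases h4 with rfl | rfl | rfl | rfl
    · have h5 : (⟨0, hk2⟩ : Fin (2 * (m + 2))) = fst (0 : Fin (m + 2)) :=
        Fin.ext (show 0 = 2 * ((0 : Fin (m + 2)).1) by simp)
      exact (congrArg (rows _ _) h5).trans (rows_fst _ _ _)
    · have h5 : (⟨1, hk2⟩ : Fin (2 * (m + 2))) = snd (0 : Fin (m + 2)) :=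
        Fin.ext (show 1 = 2 * ((0 : Fin (m + 2)).1) + 1 by simp)
      exact (congrArg (rows _ _) h5).trans (rows_snd _ _ _)
    · have h5 : (⟨2, hk2⟩ : Fin (2 * (m + 2))) = fst (1 : Fin (m + 2)) :=
        Fin.ext (show 2 = 2 * ((1 : Fin (m + 2)).1) by simp)
      exact (congrArg (rows _ _) h5).trans (rows_fst _ _ _)
    · have h5 : (⟨3, hk2⟩ : Fin (2 * (m + 2))) = snd (1 : Fin (m + 2)) :=
        Fin.ext (show 3 = 2 * ((1 : Fin (m + 2)).1) + 1 by simp)
      exact (congrArg (rows _ _) h5).trans (rows_snd _ _ _)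
  · rw [Function.extend_apply' _ _ _ (by
      rintro ⟨a, ha⟩
      have := congrArg Fin.val ha
      simp only [ee] at this
      omega)]
    unfold rows
    have h2 : 2 ≤ k.1 / 2 := by omega
    by_cases h3 : k.1 % 2 = 0
    · rw [if_pos h3, if_pos h3]
      exact cons_two x s s' f ⟨k.1 / 2, by omega⟩ h2
    · rw [if_neg h3, if_neg h3]
      exact cons_two y s s' f ⟨k.1 / 2, by omega⟩ h2

private theorem dot_swap {N : ℕ} (p : Fin N → ℝ) (g : Fin 4 → (Fin N → ℝ)) (u : Fin 4 → ℝ) :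
    ∑ b, (∑ i, p i * g b i) * u b = ∑ i, p i * ∑ b, g b i * u b := by
  simp only [Finset.sum_mul, Finset.mul_sum]
  rw [Finset.sum_comm]
  refine Finset.sum_congr rfl fun i _ => Finset.sum_congr rfl fun b _ => ?_
  ring

private theorem inner_nonneg {S : Type} [Fintype S] {N : ℕ} (γ : S → ℝ) (x y : S → (Fin N → ℝ))
    (h : ∀ u v, 0 ≤ ev (sq γ x y) u v u v) (g : Fin 4 → (Fin N → ℝ)) :
    0 ≤ ∑ s, ∑ s', γ s * γ s' * Matrix.det (Matrix.of fun a b : Fin 4 =>
      ∑ i, (![x s, y s, x s', y s'] : Fin 4 → (Fin N → ℝ)) a i * g b i) ^ 2 := by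
  set X : S → (Fin (2 * 2) → ℝ) := fun s b => ∑ i, x s i * g b i with hX
  set Y : S → (Fin (2 * 2) → ℝ) := fun s b => ∑ i, y s i * g b i with hY
  have hpos : ∀ u v : Fin (2 * 2) → ℝ, 0 ≤ ev (sq γ X Y) u v u v := by
    intro u v
    have h1 := h (fun i => ∑ b, g b i * u b) (fun i => ∑ b, g b i * v b)
    rw [ev_sq] at h1 ⊢
    have e1 : ∀ s, ∑ b, X s b * u b = ∑ i, x s i * ∑ b, g b i * u b := fun s => dot_swap (x s) g u
    have e2 : ∀ s, ∑ b, X s b * v b = ∑ i, x s i * ∑ b, g b i * v b := fun s => dot_swap (x s) g v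
    have e3 : ∀ s, ∑ b, Y s b * u b = ∑ i, y s i * ∑ b, g b i * u b := fun s => dot_swap (y s) g u
    have e4 : ∀ s, ∑ b, Y s b * v b = ∑ i, y s i * ∑ b, g b i * v b := fun s => dot_swap (y s) g v
    simp only [e1, e2, e3, e4]
    exact h1
  have hm := milnor (sq γ X Y) (algCurv_sq γ X Y) hpos
  rw [gaussBonnet_eq_mgb] at hm
  have hm2 := mgb_sq (n := 2) (fun _ => γ) X Y
  rw [hm2, sum_cons] at hm
  have h16 : (0 : ℝ) < 4 ^ 2 := by norm_num
  have hm3 := nonneg_of_mul_nonneg_right hm h16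
  refine le_of_le_of_eq hm3 ?_
  refine Finset.sum_congr rfl fun s _ => ?_
  rw [sum_cons]
  refine Finset.sum_congr rfl fun s' _ => ?_
  rw [Fintype.sum_unique, Fin.prod_univ_two]
  have hd : Dd (fun i : Fin 2 => X ((Fin.cons s (Fin.cons s' default : Fin 1 → S) : Fin 2 → S) i))
      (fun i : Fin 2 => Y ((Fin.cons s (Fin.cons s' default : Fin 1 → S) : Fin 2 → S) i)) =
      Matrix.det (Matrix.of fun a b : Fin 4 =>
        ∑ i, (![x s, y s, x s', y s'] : Fin 4 → (Fin N → ℝ)) a i * g b i) := by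
    unfold Dd
    congr 1
    ext a b
    fin_cases a <;> rfl
  rw [hd]
  rfl

/-- PROOF: as in `dec` (E5.lean) by `mgb_sq` the left side is `4 ^ (m+2)` times the sum over `f'' : Fin m → S` of
`(∏ c) * ∑ s, ∑ s', γ s * γ s' * D(s, s', f'') ^ 2`. `restrict` with `k = 4`, `e = ![fst 0, snd 0, fst 1, snd 1]` gives
`g : Fin 4 → _` with `D(s, s', f'') = det of the 4 x 4 matrix of the rows X s, Y s, X s', Y s'`, where
`X s b = ∑ i, x s i * g b i`, `Y s b = ∑ i, y s i * g b i`. By `mgb_sq` with `n = 2` the inner double sum is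
`gaussBonnet 2 (sq γ X Y) / 16` (`gaussBonnet_eq_mgb`, `Fin 2 → S` is `S × S`), which is `≥ 0` by `milnor` (`algCurv_sq`;
`ev (sq γ X Y) a b a b = ev (sq γ x y) (∑ a_i g_i) (∑ b_i g_i) (∑ a_i g_i) (∑ b_i g_i)` by `ev_sq`). -/
theorem cvx {S : Type} [Fintype S] {m : ℕ} (γ : S → ℝ) (x y : S → (Fin (2 * (m + 2)) → ℝ))
    (h : ∀ u v, 0 ≤ ev (sq γ x y) u v u v) (c : Fin m → S → ℝ) (hc : ∀ i s, 0 ≤ c i s) :
    0 ≤ mgb (m := m + 2) (Fin.cons (α := fun _ => Arr (2 * (m + 2))) (sq γ x y)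
      (Fin.cons (α := fun _ => Arr (2 * (m + 2))) (sq γ x y) fun i => sq (c i) x y)) := by
  rw [fam γ x y c, mgb_sq, sum_cons]
  refine mul_nonneg (by positivity) ?_
  have hrw : ∀ s : S, ∑ f' : Fin (m + 1) → S,
      (∏ i, (Fin.cons γ (Fin.cons γ c : Fin (m + 1) → S → ℝ) : Fin (m + 2) → S → ℝ) i
        ((Fin.cons s f' : Fin (m + 2) → S) i)) *
        Dd (fun i => x ((Fin.cons s f' : Fin (m + 2) → S) i))
          (fun i => y ((Fin.cons s f' : Fin (m + 2) → S) i)) ^ 2 =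
      ∑ s', ∑ f : Fin m → S, (∏ i, c i (f i)) * (γ s * γ s' *
        Dd (fun i => x ((Fin.cons s (Fin.cons s' f : Fin (m + 1) → S) : Fin (m + 2) → S) i))
          (fun i => y ((Fin.cons s (Fin.cons s' f : Fin (m + 1) → S) : Fin (m + 2) → S) i)) ^ 2) := by
    intro s
    rw [sum_cons]
    refine Finset.sum_congr rfl fun s' _ => Finset.sum_congr rfl fun f _ => ?_
    rw [Fin.prod_univ_succ, Fin.prod_univ_succ]
    simp only [Fin.cons_zero, Fin.cons_succ]
    ring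
  simp only [hrw]
  have hcomm : ∑ s, ∑ s', ∑ f : Fin m → S, (∏ i, c i (f i)) * (γ s * γ s' *
        Dd (fun i => x ((Fin.cons s (Fin.cons s' f : Fin (m + 1) → S) : Fin (m + 2) → S) i))
          (fun i => y ((Fin.cons s (Fin.cons s' f : Fin (m + 1) → S) : Fin (m + 2) → S) i)) ^ 2) =
      ∑ f : Fin m → S, (∏ i, c i (f i)) * ∑ s, ∑ s', (γ s * γ s' *
        Dd (fun i => x ((Fin.cons s (Fin.cons s' f : Fin (m + 1) → S) : Fin (m + 2) → S) i))
          (fun i => y ((Fin.cons s (Fin.cons s' f : Fin (m + 1) → S) : Fin (m + 2) → S) i)) ^ 2) := by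
    exact comm3 (fun f : Fin m → S => ∏ i, c i (f i)) fun s s' f => γ s * γ s' *
        Dd (fun i => x ((Fin.cons s (Fin.cons s' f : Fin (m + 1) → S) : Fin (m + 2) → S) i))
          (fun i => y ((Fin.cons s (Fin.cons s' f : Fin (m + 1) → S) : Fin (m + 2) → S) i)) ^ 2
  rw [hcomm]
  refine Finset.sum_nonneg fun f _ => mul_nonneg (Finset.prod_nonneg fun i _ => hc i _) ?_
  obtain ⟨g, hg⟩ := restrict (k := 4) (by norm_num) (ee m) (ee_inj m)
    (rows (Fin.cons 0 (Fin.cons 0 fun i => x (f i) : Fin (m + 1) → (Fin (2 * (m + 2)) → ℝ)) :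
          Fin (m + 2) → (Fin (2 * (m + 2)) → ℝ))
        (Fin.cons 0 (Fin.cons 0 fun i => y (f i) : Fin (m + 1) → (Fin (2 * (m + 2)) → ℝ)) :
          Fin (m + 2) → (Fin (2 * (m + 2)) → ℝ)))
  have hD : ∀ s s', Dd (fun i => x ((Fin.cons s (Fin.cons s' f : Fin (m + 1) → S) :
        Fin (m + 2) → S) i))
      (fun i => y ((Fin.cons s (Fin.cons s' f : Fin (m + 1) → S) : Fin (m + 2) → S) i)) =
      Matrix.det (Matrix.of fun a b : Fin 4 =>
        ∑ i, (![x s, y s, x s', y s'] : Fin 4 → (Fin (2 * (m + 2)) → ℝ)) a i * g b i) := by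
    intro s s'
    unfold Dd
    rw [rows_ext, hg]
  simp only [hD]
  exact inner_nonneg γ x y h g

end H35R
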