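import Pool.Agent.Lib.H35R.D
import Pool.Agent.Lib.H69.Hopf.Sym

/-! # H35R, chunk E7: the mixed form depends only on the number of factors `Q`; binomial formula -/

set_option autoImplicit false

namespace H35R

open Finset Equiv Pool.Agent.H69Hopf

/-- PROOF: `mgb_perm` with a permutation of `Fin n` which sends `A` onto `{i | i < card A}` (for example
`Equiv.extendSubtype` of an equivalence of these sets, as in Lib/Frob61/Expand.lean, line 214). -/
theorem mgb_count {n : ℕ} (P Q : Arr (2 * n)) (A : Finset (Fin n)) :
    mgb (fun i => if i ∈ A then Q else P) = FF P Q A.card := by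
  have hAn : A.card ≤ n := by
    have := Finset.card_le_univ A
    rwa [Fintype.card_fin] at this
  have hc : Fintype.card {i : Fin n // i ∈ A} = Fintype.card {i : Fin n // i.1 < A.card} := by
    rw [Fintype.card_coe, Fintype.card_subtype]
    have h1 : (Finset.univ.filter fun i : Fin n => i.1 < A.card) =
        Finset.univ.map (Fin.castLEEmb hAn) := by
      ext i
      simp only [Finset.mem_filter, Finset.mem_univ, true_and, Finset.mem_map]
      constructor
      · intro hi
        exact ⟨⟨i.1, hi⟩, Fin.ext rfl⟩
      · rintro ⟨a, rfl⟩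
        have := a.2
        simp only [Fin.castLEEmb_apply, Fin.val_castLE]
        omega
    rw [h1, Finset.card_map, Finset.card_univ, Fintype.card_fin]
  obtain ⟨e⟩ := Fintype.card_eq.1 hc
  have h2 : (fun i => if i ∈ A then Q else P) =
      fun i => (fun i : Fin n => if i.1 < A.card then Q else P) (e.extendSubtype i) := by
    funext i
    by_cases hi : i ∈ A
    · have h3 : (e.extendSubtype i).1 < A.card := e.extendSubtype_mem i hi
      show (if i ∈ A then Q else P) = if (e.extendSubtype i).1 < A.card then Q else P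
      rw [if_pos hi, if_pos h3]
    · have h3 : ¬ (e.extendSubtype i).1 < A.card := e.extendSubtype_not_mem i hi
      show (if i ∈ A then Q else P) = if (e.extendSubtype i).1 < A.card then Q else P
      rw [if_neg hi, if_neg h3]
  rw [h2]
  exact mgb_perm (fun i : Fin n => if i.1 < A.card then Q else P) e.extendSubtype

private theorem prod_expand {n : ℕ} (p q : Fin n → ℝ) :
    ∏ i, (p i - q i) = ∑ t ∈ (univ : Finset (Fin n)).powerset,
      (-1) ^ t.card * ∏ i, (if i ∈ t then q i else p i) := by
  have h1 : ∏ i, (p i - q i) = ∏ i, (-q i + p i) := Finset.prod_congr rfl fun i _ => by ring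
  rw [h1, Finset.prod_add]
  refine Finset.sum_congr rfl fun t _ => ?_
  have h2 : ∏ i ∈ t, -q i = (-1) ^ t.card * ∏ i ∈ t, q i := by
    rw [← Finset.prod_const, ← Finset.prod_mul_distrib]
    exact Finset.prod_congr rfl fun i _ => by ring
  have h3 : ∏ i, (if i ∈ t then q i else p i) = (∏ i ∈ t, q i) * ∏ i ∈ univ \ t, p i := by
    rw [← Finset.prod_sdiff (Finset.subset_univ t), mul_comm]
    congr 1
    · exact Finset.prod_congr rfl fun i hi => if_pos hi
    · exact Finset.prod_congr rfl fun i hi => if_neg (Finset.mem_sdiff.1 hi).2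
  rw [h2, h3, mul_assoc]

/-- PROOF: `∏ i, (P - Q)` is the sum over `A` of `(-1) ^ card A * ∏ i, if i ∈ A then Q else P` (`Finset.prod_add`,
or `Finset.prod_sub`); exchange the sums; `mgb_count`; `Finset.sum_powerset_apply_card`. -/
theorem gb_binom {n : ℕ} (P Q : Arr (2 * n)) :
    gaussBonnet n (fun i j k l => P i j k l - Q i j k l) =
      ∑ j ∈ range (n + 1), (-1) ^ j * (n.choose j : ℝ) * FF P Q j := by
  have h1 : gaussBonnet n (fun i j k l => P i j k l - Q i j k l) =
      ∑ t ∈ (univ : Finset (Fin n)).powerset, (-1) ^ t.card * mgb (fun i => if i ∈ t then Q else P) := by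
    unfold gaussBonnet mgb
    simp only [Finset.mul_sum]
    symm
    rw [Finset.sum_comm]
    refine Finset.sum_congr rfl fun σ _ => ?_
    rw [Finset.sum_comm]
    refine Finset.sum_congr rfl fun τ _ => ?_
    rw [prod_expand (fun i => P (σ (fst i)) (σ (snd i)) (τ (fst i)) (τ (snd i)))
      (fun i => Q (σ (fst i)) (σ (snd i)) (τ (fst i)) (τ (snd i))), Finset.mul_sum]
    refine Finset.sum_congr rfl fun t _ => ?_
    have h2 : ∏ i, (if i ∈ t then Q else P) (σ (fst i)) (σ (snd i)) (τ (fst i)) (τ (snd i)) =
        ∏ i, (if i ∈ t then Q (σ (fst i)) (σ (snd i)) (τ (fst i)) (τ (snd i)) else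
          P (σ (fst i)) (σ (snd i)) (τ (fst i)) (τ (snd i))) := by
      refine Finset.prod_congr rfl fun i _ => ?_
      by_cases hi : i ∈ t
      · rw [if_pos hi, if_pos hi]
      · rw [if_neg hi, if_neg hi]
    rw [h2]
    ring
  rw [h1]
  simp only [mgb_count]
  rw [Finset.sum_powerset_apply_card (fun c => (-1) ^ c * FF P Q c), Finset.card_univ, Fintype.card_fin]
  refine Finset.sum_congr rfl fun j _ => ?_
  rw [nsmul_eq_mul]
  ring

end H35R
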