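import Pool.Agent.Lib.H35R.E7

/-! # H35R, chunk E8: the mixed forms with the first factors split off -/

set_option autoImplicit false

namespace H35R

open Finset Equiv Pool.Agent.H69Hopf

private theorem mgb_bool {n : ℕ} (P Q : Arr (2 * n)) (b : Fin n → Bool) :
    mgb (fun i => if b i = true then Q else P) = FF P Q (∑ i, if b i = true then 1 else 0) := by
  have h := mgb_count P Q (univ.filter fun i => b i = true)
  rw [Finset.card_filter] at h
  rw [← h]
  congr 1
  funext i
  simp

private theorem sum_lt_ite (m j : ℕ) (hj : j ≤ m) :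
    (∑ i : Fin m, if decide (i.1 < j) = true then 1 else 0) = j := by
  rw [Fin.sum_univ_eq_sum_range (fun i => if decide (i < j) = true then 1 else 0) m]
  simp only [decide_eq_true_eq]
  rw [← Finset.card_filter]
  have h : (range m).filter (fun i => i < j) = range j := by
    ext i
    simp only [mem_filter, mem_range]
    omega
  rw [h, card_range]

/-- PROOF: `mgb_count` for `A = {i | i ≠ 0, i - 1 < j}` and for `A = {i | i < j + 1}` (the second is by definition,
`Fin.cases`). -/
theorem FF_cons {m : ℕ} (P Q : Arr (2 * (m + 1))) (j : ℕ) (hj : j ≤ m) :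
    FF P Q j = mgb (m := m + 1) (Fin.cons (α := fun _ => Arr (2 * (m + 1))) P fun i : Fin m => if i.1 < j then Q else P) ∧
    FF P Q (j + 1) =
      mgb (m := m + 1) (Fin.cons (α := fun _ => Arr (2 * (m + 1))) Q fun i : Fin m => if i.1 < j then Q else P) := by
  have key : ∀ b0 : Bool, mgb (m := m + 1) (Fin.cons (α := fun _ => Arr (2 * (m + 1))) (if b0 = true then Q else P)
      fun i : Fin m => if i.1 < j then Q else P) = FF P Q ((if b0 = true then 1 else 0) + j) := by
    intro b0
    have h := mgb_bool P Q (Fin.cons (α := fun _ => Bool) b0 fun i : Fin m => decide (i.1 < j))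
    rw [Fin.sum_univ_succ] at h
    simp only [Fin.cons_zero, Fin.cons_succ] at h
    rw [sum_lt_ite m j hj] at h
    rw [← h]
    congr 1
    funext i
    refine Fin.cases ?_ (fun k => ?_) i
    · simp only [Fin.cons_zero]
    · simp only [Fin.cons_succ, decide_eq_true_eq]
  constructor
  · have h := key false
    simp only [Bool.false_eq_true, if_false, Nat.zero_add] at h
    exact h.symm
  · have h := key true
    simp only [if_true] at h
    rw [Nat.add_comm j 1]
    exact h.symm

private theorem mgb_cons_lin {m : ℕ} (P Q : Arr (2 * (m + 1))) (t : ℝ) (T : Fin m → Arr (2 * (m + 1))) :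
    mgb (m := m + 1) (Fin.cons (α := fun _ => Arr (2 * (m + 1))) (fun a b c d => P a b c d - t * Q a b c d) T) =
      mgb (m := m + 1) (Fin.cons (α := fun _ => Arr (2 * (m + 1))) P T) -
        t * mgb (m := m + 1) (Fin.cons (α := fun _ => Arr (2 * (m + 1))) Q T) := by
  unfold mgb
  simp only [Finset.mul_sum]
  rw [← Finset.sum_sub_distrib]
  refine Finset.sum_congr rfl fun σ _ => ?_
  rw [← Finset.sum_sub_distrib]
  refine Finset.sum_congr rfl fun τ _ => ?_
  rw [Fin.prod_univ_succ, Fin.prod_univ_succ, Fin.prod_univ_succ]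
  simp only [Fin.cons_zero, Fin.cons_succ]
  ring

private theorem mgb_cons_lin2 {m : ℕ} (X P Q : Arr (2 * (m + 2))) (t : ℝ) (T : Fin m → Arr (2 * (m + 2))) :
    mgb (m := m + 2) (Fin.cons (α := fun _ => Arr (2 * (m + 2))) X
      (Fin.cons (α := fun _ => Arr (2 * (m + 2))) (fun a b c d => P a b c d - t * Q a b c d) T)) =
      mgb (m := m + 2) (Fin.cons (α := fun _ => Arr (2 * (m + 2))) X
        (Fin.cons (α := fun _ => Arr (2 * (m + 2))) P T)) -
        t * mgb (m := m + 2) (Fin.cons (α := fun _ => Arr (2 * (m + 2))) X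
          (Fin.cons (α := fun _ => Arr (2 * (m + 2))) Q T)) := by
  unfold mgb
  simp only [Finset.mul_sum]
  rw [← Finset.sum_sub_distrib]
  refine Finset.sum_congr rfl fun σ _ => ?_
  rw [← Finset.sum_sub_distrib]
  refine Finset.sum_congr rfl fun τ _ => ?_
  rw [Fin.prod_univ_succ, Fin.prod_univ_succ, Fin.prod_univ_succ, Fin.prod_univ_succ, Fin.prod_univ_succ,
    Fin.prod_univ_succ]
  simp only [Fin.cons_zero, Fin.cons_succ]
  ring

/-- PROOF: `mgb` is linear in each factor (expand the definition; `Fin.prod_univ_succ` twice, `Finset.sum_sub_distrib`,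
`ring`); the four terms are `mgb` of families with `j`, `j + 1`, `j + 1`, `j + 2` factors `Q` (`mgb_count`). -/
theorem FF_cons2 {m : ℕ} (P Q : Arr (2 * (m + 2))) (t : ℝ) (j : ℕ) (hj : j ≤ m) :
    mgb (m := m + 2) (Fin.cons (α := fun _ => Arr (2 * (m + 2))) (fun a b c d => P a b c d - t * Q a b c d)
      (Fin.cons (α := fun _ => Arr (2 * (m + 2))) (fun a b c d => P a b c d - t * Q a b c d)
        fun i : Fin m => if i.1 < j then Q else P)) =
      FF P Q j - 2 * t * FF P Q (j + 1) + t ^ 2 * FF P Q (j + 2) := by
  have key : ∀ b0 b1 : Bool, mgb (m := m + 2) (Fin.cons (α := fun _ => Arr (2 * (m + 2)))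
      (if b0 = true then Q else P) (Fin.cons (α := fun _ => Arr (2 * (m + 2))) (if b1 = true then Q else P)
      fun i : Fin m => if i.1 < j then Q else P)) =
      FF P Q ((if b0 = true then 1 else 0) + ((if b1 = true then 1 else 0) + j)) := by
    intro b0 b1
    have h := mgb_bool P Q (Fin.cons (α := fun _ => Bool) b0
      (Fin.cons (α := fun _ => Bool) b1 fun i : Fin m => decide (i.1 < j)))
    rw [Fin.sum_univ_succ, Fin.sum_univ_succ] at h
    simp only [Fin.cons_zero, Fin.cons_succ] at h
    rw [sum_lt_ite m j hj] at h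
    rw [← h]
    congr 1
    funext i
    refine Fin.cases ?_ (fun k => ?_) i
    · simp only [Fin.cons_zero]
    · refine Fin.cases ?_ (fun l => ?_) k
      · simp only [Fin.cons_succ, Fin.cons_zero]
      · simp only [Fin.cons_succ, decide_eq_true_eq]
  have h00 := key false false
  have h01 := key false true
  have h10 := key true false
  have h11 := key true true
  simp only [Bool.false_eq_true, if_false, if_true, Nat.zero_add] at h00 h01 h10 h11
  rw [mgb_cons_lin, mgb_cons_lin2, mgb_cons_lin2, h00, h01, h10, h11]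
  have e1 : 1 + j = j + 1 := Nat.add_comm _ _
  have e2 : 1 + (1 + j) = j + 2 := by omega
  rw [e2, e1]
  ring

end H35R
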