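import Mathlib

/-! # H35R, chunk E9: the inequality for convex decreasing sequences -/

set_option autoImplicit false

namespace H35R

open Finset

private noncomputable def aa (n j : ℕ) : ℝ := (n.choose j : ℝ) * (2 / (n : ℝ)) ^ j

private theorem aa_nonneg (n j : ℕ) : 0 ≤ aa n j := by unfold aa; positivity

private theorem aa_succ (n j : ℕ) (hn : 2 ≤ n) (hj : j ≤ n) :
    aa n (j + 1) * (((j : ℝ) + 1) * n) = aa n j * (2 * ((n : ℝ) - j)) := by
  have h := Nat.choose_succ_right_eq n j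
  have h' : (n.choose (j + 1) : ℝ) * ((j : ℝ) + 1) = (n.choose j : ℝ) * ((n : ℝ) - j) := by
    have := congrArg (Nat.cast (R := ℝ)) h
    push_cast [Nat.cast_sub hj] at this
    exact this
  have hn0 : (n : ℝ) ≠ 0 := by positivity
  unfold aa
  calc (n.choose (j + 1) : ℝ) * (2 / (n : ℝ)) ^ (j + 1) * (((j : ℝ) + 1) * n)
      = ((n.choose (j + 1) : ℝ) * ((j : ℝ) + 1)) * ((2 / (n : ℝ)) ^ j * (2 / (n : ℝ) * n)) := by ring
    _ = ((n.choose j : ℝ) * ((n : ℝ) - j)) * ((2 / (n : ℝ)) ^ j * (2 / (n : ℝ) * n)) := by rw [h']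
    _ = (n.choose j : ℝ) * (2 / (n : ℝ)) ^ j * (2 * ((n : ℝ) - j)) := by
      rw [div_mul_cancel₀ _ hn0]; ring

private theorem aa_anti (n j : ℕ) (hn : 2 ≤ n) (hj : 1 ≤ j) : aa n (j + 1) ≤ aa n j := by
  rcases Nat.lt_or_ge n j with h | h
  · have : aa n (j + 1) = 0 := by
      unfold aa; rw [Nat.choose_eq_zero_of_lt (by omega)]; simp
    rw [this]; exact aa_nonneg n j
  · have h1 := aa_succ n j hn h
    have hn' : (2 : ℝ) ≤ n := by exact_mod_cast hn
    have hj' : (1 : ℝ) ≤ j := by exact_mod_cast hj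
    have h2 : aa n j * (2 * ((n : ℝ) - j)) ≤ aa n j * (((j : ℝ) + 1) * n) := by
      apply mul_le_mul_of_nonneg_left _ (aa_nonneg n j)
      nlinarith
    rw [← h1] at h2
    exact le_of_mul_le_mul_right h2 (by positivity)

private theorem aa_vals (n : ℕ) (hn : 4 ≤ n) : aa n 0 = 1 ∧ aa n 1 = 2 ∧ aa n 2 = 2 * ((n : ℝ) - 1) / n ∧
    aa n 3 = 4 * ((n : ℝ) - 1) * ((n : ℝ) - 2) / (3 * (n : ℝ) ^ 2) ∧
    aa n 4 = 2 * ((n : ℝ) - 1) * ((n : ℝ) - 2) * ((n : ℝ) - 3) / (3 * (n : ℝ) ^ 3) ∧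
    aa n 5 = 4 * ((n : ℝ) - 1) * ((n : ℝ) - 2) * ((n : ℝ) - 3) * ((n : ℝ) - 4) / (15 * (n : ℝ) ^ 4) := by
  have hn0 : (n : ℝ) ≠ 0 := by positivity
  have e0 : aa n 0 = 1 := by simp [aa]
  have e1 : aa n 1 = 2 := by
    simp only [aa, Nat.choose_one_right, pow_one]
    field_simp
  have r1 := aa_succ n 1 (by omega) (by omega)
  have r2 := aa_succ n 2 (by omega) (by omega)
  have r3 := aa_succ n 3 (by omega) (by omega)
  have r4 := aa_succ n 4 (by omega) (by omega)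
  push_cast at r1 r2 r3 r4
  have e2 : aa n 2 = 2 * ((n : ℝ) - 1) / n := by
    rw [e1] at r1
    rw [eq_div_iff hn0]
    have : aa n (1 + 1) = aa n 2 := rfl
    rw [this] at r1
    linarith
  have e3 : aa n 3 = 4 * ((n : ℝ) - 1) * ((n : ℝ) - 2) / (3 * (n : ℝ) ^ 2) := by
    rw [e2] at r2
    have : aa n (2 + 1) = aa n 3 := rfl
    rw [this] at r2
    field_simp at r2 ⊢
    linarith
  have e4 : aa n 4 = 2 * ((n : ℝ) - 1) * ((n : ℝ) - 2) * ((n : ℝ) - 3) / (3 * (n : ℝ) ^ 3) := by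
    rw [e3] at r3
    have : aa n (3 + 1) = aa n 4 := rfl
    rw [this] at r3
    field_simp at r3 ⊢
    linarith
  have e5 : aa n 5 = 4 * ((n : ℝ) - 1) * ((n : ℝ) - 2) * ((n : ℝ) - 3) * ((n : ℝ) - 4) / (15 * (n : ℝ) ^ 4) := by
    rw [e4] at r4
    have : aa n (4 + 1) = aa n 5 := rfl
    rw [this] at r4
    field_simp at r4 ⊢
    linarith
  exact ⟨e0, e1, e2, e3, e4, e5⟩

private noncomputable def BB (n m : ℕ) : ℝ := ∑ j ∈ range (m + 1), (-1) ^ j * aa n j

private theorem BB_succ (n m : ℕ) : BB n (m + 1) = BB n m + (-1) ^ (m + 1) * aa n (m + 1) := by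
  unfold BB; rw [sum_range_succ]

private theorem BB_odd (n : ℕ) (hn : 4 ≤ n) (k : ℕ) : 0 ≤ BB n (2 * k + 5) := by
  induction k with
  | zero =>
    obtain ⟨e0, e1, e2, e3, e4, e5⟩ := aa_vals n hn
    have hB : BB n (2 * 0 + 5) = aa n 0 - aa n 1 + aa n 2 - aa n 3 + aa n 4 - aa n 5 := by
      unfold BB
      simp only [Nat.mul_zero, Nat.zero_add, sum_range_succ, sum_range_zero]
      ring
    have hx : (4 : ℝ) ≤ n := by exact_mod_cast hn
    rw [hB, e0, e1, e2, e3, e4, e5]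
    have hn0 : (n : ℝ) ≠ 0 := by positivity
    have : (1 : ℝ) - 2 + 2 * ((n : ℝ) - 1) / n - 4 * ((n : ℝ) - 1) * ((n : ℝ) - 2) / (3 * (n : ℝ) ^ 2) +
        2 * ((n : ℝ) - 1) * ((n : ℝ) - 2) * ((n : ℝ) - 3) / (3 * (n : ℝ) ^ 3) -
        4 * ((n : ℝ) - 1) * ((n : ℝ) - 2) * ((n : ℝ) - 3) * ((n : ℝ) - 4) / (15 * (n : ℝ) ^ 4) =
        (((n : ℝ) - 2) * ((n : ℝ) ^ 3 + 12 * (n : ℝ) ^ 2 - 46 * n + 48)) / (15 * (n : ℝ) ^ 4) := by
      field_simp
      ring
    rw [this]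
    apply div_nonneg _ (by positivity)
    apply mul_nonneg (by linarith)
    nlinarith [mul_nonneg (sub_nonneg.2 hx) (sub_nonneg.2 hx), mul_nonneg (mul_nonneg (sub_nonneg.2 hx) (sub_nonneg.2 hx)) (sub_nonneg.2 hx)]
  | succ k ih =>
    have e1 : 2 * (k + 1) + 5 = (2 * k + 5 + 1) + 1 := by ring
    rw [e1, BB_succ, BB_succ]
    have p1 : ((-1 : ℝ)) ^ (2 * k + 5 + 1) = 1 := Even.neg_one_pow ⟨k + 3, by ring⟩
    have p2 : ((-1 : ℝ)) ^ (2 * k + 5 + 1 + 1) = -1 := Odd.neg_one_pow ⟨k + 3, by ring⟩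
    rw [p1, p2]
    have := aa_anti n (2 * k + 5 + 1) (by omega) (by omega)
    linarith

private theorem BB_nonneg (n : ℕ) (hn : 4 ≤ n) (m : ℕ) (hm : 4 ≤ m) : 0 ≤ BB n m := by
  rcases Nat.even_or_odd m with ⟨r, hr⟩ | ⟨r, hr⟩
  · have e : 2 * (r - 2) + 5 = m + 1 := by omega
    have h := BB_odd n hn (r - 2)
    rw [e, BB_succ] at h
    have p2 : ((-1 : ℝ)) ^ (m + 1) = -1 := Odd.neg_one_pow ⟨r, by omega⟩
    rw [p2] at h
    have := aa_nonneg n (m + 1)
    linarith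
  · have e : 2 * (r - 2) + 5 = m := by omega
    have h := BB_odd n hn (r - 2)
    rw [e] at h
    exact h

/-- PROOF. Put `a j = choose n j * (2 / n) ^ j`: `a 0 = 1`, `a 1 = 2`, `a 2 = 2 (n-1) / n`, `a (j+1) / a j =
2 (n-j) / (n (j+1)) ≤ 1` for `j ≥ 1`. `D i = ∑ j ≤ i, (-1)^j a j`: `D 2 = 1 - 2/n ≥ 0`, `D 2 + D 3 =
2 (n-2)(n+2) / (3 n^2) ≥ 0`, `D 5 ≥ 0` (for `n ≥ 5`: `15 n^4 D 5 = (n-2) (n^3 + 12 n^2 - 46 n + 48)`), so `D i ≥ 0` for all `i ≥ 4`
(alternating sum with decreasing terms). Abel summation: the difference of the two sides is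
`∑_{2 ≤ i < n} D i * (s i - s (i+1)) + D n * s n`; the differences `s i - s (i+1)` are nonnegative and decreasing, so the
terms `i = 2, 3` together are `≥ 0`. Small cases: `n = 2` equality; `n = 3`: `a 2 - 1 = 1/3 ≥ a 3 = 8/27`; `n = 4`: `a 2 - 1 = 1/2 = a 3`,
`a 4 = 1/16`. Any other proof is fine. -/
theorem seq_ineq (n : ℕ) (hn : 2 ≤ n) (s : ℕ → ℝ) (h0 : ∀ j, j ≤ n → 0 ≤ s j) (h1 : ∀ j, j < n → s (j + 1) ≤ s j)
    (h2 : ∀ j, j + 2 ≤ n → 0 ≤ s j - 2 * s (j + 1) + s (j + 2)) :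
    s 0 - 2 * s 1 + s 2 ≤ ∑ j ∈ range (n + 1), (-1) ^ j * (n.choose j : ℝ) * (2 / (n : ℝ)) ^ j * s j := by
  rcases Nat.lt_or_ge n 4 with h | h4
  · have h' : n = 2 ∨ n = 3 := by omega
    rcases h' with rfl | rfl
    · simp only [sum_range_succ, sum_range_zero]
      norm_num [Nat.choose]
    · have g0 := h0 3 (by omega)
      have g1 := h1 2 (by omega)
      simp only [sum_range_succ, sum_range_zero]
      norm_num [Nat.choose]
      norm_num at g1
      linarith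
  · have key : ∀ m, 4 ≤ m → m ≤ n → (s 0 - 2 * s 1 + s 2) + BB n m * s m ≤
        ∑ j ∈ range (m + 1), (-1) ^ j * aa n j * s j := by
      intro m hm
      induction m, hm using Nat.le_induction with
      | base =>
        intro _
        obtain ⟨e0, e1, e2, e3, e4, e5⟩ := aa_vals n h4
        have hx : (4 : ℝ) ≤ n := by exact_mod_cast h4
        have hB : BB n 4 = aa n 0 - aa n 1 + aa n 2 - aa n 3 + aa n 4 := by
          unfold BB
          simp only [sum_range_succ, sum_range_zero]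
          ring
        have c1 := h1 2 (by omega)
        have c2 := h1 3 (by omega)
        have c3 := h2 2 (by omega)
        norm_num at c1 c2 c3
        have hn0 : (n : ℝ) ≠ 0 := by positivity
        have d2 : 0 ≤ aa n 2 - 1 := by
          rw [e2]
          have : 2 * ((n : ℝ) - 1) / n - 1 = ((n : ℝ) - 2) / n := by field_simp; ring
          rw [this]
          exact div_nonneg (by linarith) (by positivity)
        have d3 : 0 ≤ 2 * (aa n 2 - 1) - aa n 3 := by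
          rw [e2, e3]
          have : 2 * (2 * ((n : ℝ) - 1) / n - 1) - 4 * ((n : ℝ) - 1) * ((n : ℝ) - 2) / (3 * (n : ℝ) ^ 2) =
              2 * (((n : ℝ) - 2) * ((n : ℝ) + 2)) / (3 * (n : ℝ) ^ 2) := by field_simp; ring
          rw [this]
          exact div_nonneg (mul_nonneg (by norm_num) (mul_nonneg (by linarith) (by linarith))) (by positivity)
        rw [hB, e0, e1]
        simp only [sum_range_succ, sum_range_zero, e0, e1]
        have k1 := mul_nonneg d2 c3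
        have k2 := mul_nonneg d3 (sub_nonneg.2 c2)
        nlinarith [k1, k2]
      | succ m hm ih =>
        intro hmn
        have ih' := ih (by omega)
        rw [sum_range_succ, BB_succ]
        have hb := BB_nonneg n h4 m hm
        have hs := h1 m (by omega)
        have := mul_le_mul_of_nonneg_left hs hb
        have e : (BB n m + (-1) ^ (m + 1) * aa n (m + 1)) * s (m + 1) =
          BB n m * s (m + 1) + (-1) ^ (m + 1) * aa n (m + 1) * s (m + 1) := by ring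
        rw [e]
        linarith
    have h5 := key n h4 le_rfl
    have h6 := mul_nonneg (BB_nonneg n h4 n h4) (h0 n le_rfl)
    have h7 : ∑ j ∈ range (n + 1), (-1) ^ j * (n.choose j : ℝ) * (2 / (n : ℝ)) ^ j * s j =
        ∑ j ∈ range (n + 1), (-1) ^ j * aa n j * s j := by
      refine sum_congr rfl fun j _ => ?_
      unfold aa
      ring
    rw [h7]
    linarith

end H35R
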