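import Pool.Agent.Lib.H35R.E5
import Pool.Agent.Lib.H35R.E6
import Pool.Agent.Lib.H35R.E8
import Pool.Agent.Lib.H35R.E9
import Pool.Agent.Lib.H35R.E10

/-! # H35R, F: the pointwise theorem (helper35) -/

set_option autoImplicit false

namespace H35R

open Finset Equiv Pool.Agent.H69Hopf

private theorem fam {S : Type} [Fintype S] {n : ℕ} (α β : S → ℝ) (x y : S → (Fin (2 * n) → ℝ)) (m j : ℕ) :
    (fun i : Fin m => if i.1 < j then sq β x y else sq α x y) = fun i : Fin m => sq (if i.1 < j then β else α) x y := by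
  funext i
  split_ifs <;> rfl

private theorem FF_nonneg {S : Type} [Fintype S] {n : ℕ} (α β : S → ℝ) (hα : ∀ s, 0 ≤ α s) (hβ : ∀ s, 0 ≤ β s)
    (x y : S → (Fin (2 * n) → ℝ)) (j : ℕ) : 0 ≤ FF (sq α x y) (sq β x y) j := by
  unfold FF
  rw [fam α β x y n j, mgb_sq]
  refine mul_nonneg (by positivity) (Finset.sum_nonneg fun f _ => mul_nonneg (Finset.prod_nonneg fun i _ => ?_)
    (sq_nonneg _))
  split_ifs
  · exact hβ _
  · exact hα _

private theorem FF_step {S : Type} [Fintype S] {n : ℕ} (α β : S → ℝ) (hα : ∀ s, 0 ≤ α s) (hβ : ∀ s, 0 ≤ β s)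
    (x y : S → (Fin (2 * n) → ℝ)) (ε : ℝ)
    (h : ∀ u v, ev (sq β x y) u v u v ≤ ε * ev (sq α x y) u v u v) (j : ℕ) (hj : j < n) :
    FF (sq α x y) (sq β x y) (j + 1) ≤ ε * FF (sq α x y) (sq β x y) j := by
  obtain ⟨m, rfl⟩ : ∃ m, n = m + 1 := ⟨n - 1, by omega⟩
  obtain ⟨h1, h2⟩ := FF_cons (sq α x y) (sq β x y) j (by omega)
  rw [h1, h2, fam α β x y m j]
  refine dec α β x y ε h (fun i : Fin m => if i.1 < j then β else α) ?_
  intro i s
  show 0 ≤ (if i.1 < j then β else α) s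
  split_ifs
  · exact hβ _
  · exact hα _

private theorem FF_cvx {S : Type} [Fintype S] {n : ℕ} (α β : S → ℝ) (hα : ∀ s, 0 ≤ α s) (hβ : ∀ s, 0 ≤ β s)
    (x y : S → (Fin (2 * n) → ℝ)) (t : ℝ)
    (h : ∀ u v, t * ev (sq β x y) u v u v ≤ ev (sq α x y) u v u v) (j : ℕ) (hj : j + 2 ≤ n) :
    0 ≤ FF (sq α x y) (sq β x y) j - 2 * t * FF (sq α x y) (sq β x y) (j + 1) +
      t ^ 2 * FF (sq α x y) (sq β x y) (j + 2) := by
  obtain ⟨m, rfl⟩ : ∃ m, n = m + 2 := ⟨n - 2, by omega⟩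
  rw [← FF_cons2 (sq α x y) (sq β x y) t j (by omega), fam α β x y m j, ← sq_sub_smul]
  refine cvx (fun s => α s - t * β s) x y ?_ (fun i : Fin m => if i.1 < j then β else α) ?_
  · intro u v
    have h1 := h u v
    have h2 : ev (sq (fun s => α s - t * β s) x y) u v u v =
        ev (sq α x y) u v u v - t * ev (sq β x y) u v u v := by
      rw [ev_sq, ev_sq, ev_sq, Finset.mul_sum, ← Finset.sum_sub_distrib]
      exact Finset.sum_congr rfl fun s _ => by ring
    rw [h2]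
    linarith
  · intro i s
    show 0 ≤ (if i.1 < j then β else α) s
    split_ifs
    · exact hβ _
    · exact hα _

private theorem ev_sq_nonneg {S : Type} [Fintype S] {N : ℕ} (c : S → ℝ) (hc : ∀ s, 0 ≤ c s) (x y : S → Fin N → ℝ)
    (u v : Fin N → ℝ) : 0 ≤ ev (sq c x y) u v u v := by
  rw [ev_sq]
  exact Finset.sum_nonneg fun s _ => mul_nonneg (hc s) (sq_nonneg _)

private theorem main {S : Type} [Fintype S] {n : ℕ} (hn : 2 ≤ n) (α β : S → ℝ) (hα : ∀ s, 0 ≤ α s) (hβ : ∀ s, 0 ≤ β s)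
    (x y : S → (Fin (2 * n) → ℝ))
    (h : ∀ u v, (n : ℝ) * ev (sq β x y) u v u v ≤ 2 * ev (sq α x y) u v u v) :
    FF (sq α x y) (sq β x y) 0 - 2 * ((n : ℝ) / 2) * FF (sq α x y) (sq β x y) 1 +
      ((n : ℝ) / 2) ^ 2 * FF (sq α x y) (sq β x y) 2 ≤
      gaussBonnet n (fun i j k l => sq α x y i j k l - sq β x y i j k l) := by
  have hn0 : (0 : ℝ) < n := by
    have : 0 < n := by omega
    exact_mod_cast this
  have hinv : (2 / (n : ℝ)) * ((n : ℝ) / 2) = 1 := by field_simp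
  have key := seq_ineq n hn (fun j => ((n : ℝ) / 2) ^ j * FF (sq α x y) (sq β x y) j)
    (fun j _ => mul_nonneg (by positivity) (FF_nonneg α β hα hβ x y j)) ?_ ?_
  · have e1 : ∑ j ∈ range (n + 1), (-1 : ℝ) ^ j * (n.choose j : ℝ) * (2 / (n : ℝ)) ^ j *
        (((n : ℝ) / 2) ^ j * FF (sq α x y) (sq β x y) j) =
        gaussBonnet n (fun i j k l => sq α x y i j k l - sq β x y i j k l) := by
      rw [gb_binom]
      refine Finset.sum_congr rfl fun j _ => ?_
      have : (2 / (n : ℝ)) ^ j * ((n : ℝ) / 2) ^ j = 1 := by rw [← mul_pow, hinv, one_pow]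
      linear_combination ((-1 : ℝ) ^ j * (n.choose j : ℝ) * FF (sq α x y) (sq β x y) j) * this
    rw [← e1]
    refine le_trans (le_of_eq ?_) key
    ring
  · intro j hj
    have h1 := FF_step α β hα hβ x y (2 / (n : ℝ)) (fun u v => by
      have := h u v
      rw [div_mul_eq_mul_div, le_div_iff₀ hn0]
      linarith) j hj
    have h2 : 0 ≤ ((n : ℝ) / 2) ^ (j + 1) := by positivity
    have h3 := mul_le_mul_of_nonneg_left h1 h2
    refine h3.trans (le_of_eq ?_)
    rw [pow_succ]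
    linear_combination (((n : ℝ) / 2) ^ j * FF (sq α x y) (sq β x y) j) * hinv
  · intro j hj
    have h1 := FF_cvx α β hα hβ x y ((n : ℝ) / 2) (fun u v => by
      have := h u v
      linarith) j hj
    have h2 : 0 ≤ ((n : ℝ) / 2) ^ j := by positivity
    have h3 := mul_nonneg h2 h1
    refine h3.trans (le_of_eq ?_)
    ring

/-- The pointwise theorem. -/
theorem pointwise {S : Type} [Fintype S] {n : ℕ} (hn : 2 ≤ n) (α β : S → ℝ) (hα : ∀ s, 0 ≤ α s) (hβ : ∀ s, 0 ≤ β s)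
    (x y : S → (Fin (2 * n) → ℝ))
    (h : ∀ u v, (n : ℝ) * ev (sq β x y) u v u v ≤ 2 * ev (sq α x y) u v u v) :
    0 ≤ gaussBonnet n (fun i j k l => sq α x y i j k l - sq β x y i j k l) := by
  refine le_trans ?_ (main hn α β hα hβ x y h)
  exact FF_cvx α β hα hβ x y ((n : ℝ) / 2) (fun u v => by
    have := h u v
    linarith) 0 (by omega)

/-- The pointwise theorem, strict form. -/
theorem pointwise_pos {S : Type} [Fintype S] {n : ℕ} (hn : 2 ≤ n) (α β : S → ℝ) (hα : ∀ s, 0 ≤ α s) (hβ : ∀ s, 0 ≤ β s)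
    (x y : S → (Fin (2 * n) → ℝ)) (r : ℝ) (hr : r < 1)
    (h : ∀ u v, (n : ℝ) * ev (sq β x y) u v u v ≤ 2 * r * ev (sq α x y) u v u v)
    (hp : ∀ u v, LinearIndependent ℝ ![u, v] → 0 < ev (sq α x y) u v u v) :
    0 < gaussBonnet n (fun i j k l => sq α x y i j k l - sq β x y i j k l) := by
  have hn0 : (0 : ℝ) < n := by
    have : 0 < n := by omega
    exact_mod_cast this
  obtain ⟨q, hq0, hq1, hrq⟩ : ∃ q : ℝ, 0 < q ∧ q < 1 ∧ r ≤ q :=
    ⟨max r (1 / 2), lt_of_lt_of_le (by norm_num) (le_max_right _ _), max_lt hr (by norm_num), le_max_left _ _⟩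
  have hq : ∀ u v, (n : ℝ) * ev (sq β x y) u v u v ≤ 2 * q * ev (sq α x y) u v u v := by
    intro u v
    refine (h u v).trans ?_
    have := mul_le_mul_of_nonneg_right hrq (ev_sq_nonneg α hα x y u v)
    linarith
  have h1 : ∀ u v, (n : ℝ) * ev (sq β x y) u v u v ≤ 2 * ev (sq α x y) u v u v := by
    intro u v
    refine (hq u v).trans ?_
    have := mul_le_mul_of_nonneg_right hq1.le (ev_sq_nonneg α hα x y u v)
    linarith
  refine lt_of_lt_of_le ?_ (main hn α β hα hβ x y h1)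
  have hF0 : 0 < FF (sq α x y) (sq β x y) 0 := by
    have := mgb_pos α hα x y hp
    unfold FF
    simpa using this
  have hs := FF_step α β hα hβ x y (2 * q / (n : ℝ)) (fun u v => by
      have := hq u v
      rw [div_mul_eq_mul_div, le_div_iff₀ hn0]
      linarith) 0 (by omega)
  have hc := FF_cvx α β hα hβ x y ((n : ℝ) / (2 * q)) (fun u v => by
      have := hq u v
      rw [div_mul_eq_mul_div, div_le_iff₀ (by positivity)]
      linarith) 0 (by omega)
  simp only [zero_add] at hs hc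
  set A := FF (sq α x y) (sq β x y) 0 with hA
  set B := FF (sq α x y) (sq β x y) 1 with hB
  set C := FF (sq α x y) (sq β x y) 2 with hC
  have hs' : (n : ℝ) / 2 * B ≤ q * A := by
    have := mul_le_mul_of_nonneg_left hs (show (0 : ℝ) ≤ (n : ℝ) / 2 by positivity)
    refine this.trans (le_of_eq ?_)
    field_simp
  have hc' : 0 ≤ q ^ 2 * A - 2 * q * ((n : ℝ) / 2 * B) + ((n : ℝ) / 2) ^ 2 * C := by
    have := mul_nonneg (show (0 : ℝ) ≤ q ^ 2 by positivity) hc
    refine this.trans (le_of_eq ?_)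
    field_simp
  have h3 : 0 < (1 - q) ^ 2 * A := by
    have : 0 < 1 - q := by linarith
    positivity
  nlinarith [mul_nonneg (show (0 : ℝ) ≤ 1 - q by linarith) (sub_nonneg.2 hs')]

end H35R
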