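import Pool.Agent.Lib.H35R.F
import Pool.Agent.Lib.H46X.B3
import Pool.Agent.Lib.H72S.Sep
import Pool.Agent.Lib.H79G.F1

/-! # H35R, file M: the class of curvature tensors and closed manifolds (helper35) -/

set_option autoImplicit false

open scoped Manifold ContDiff

namespace H35R

open Finset Equiv Pool.Agent.H69Hopf Pool.Agent.H46X H31R H79G
open Pool.Agent.H72S (sepT sec)

/-- Relative pinching: `R = Q - P` with `P`, `Q` sums of squares of simple two-forms and
`n * sec Q ≤ 2 * r * sec P`, in dimension `N = 2 * n ≥ 4`. -/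
def RelPinch {N : ℕ} (r : ℝ) (R : Arr N) : Prop :=
  4 ≤ N ∧ ∃ (p q : ℕ) (x y : Fin p → Fin N → ℝ) (z w : Fin q → Fin N → ℝ),
    R = sepT z w - sepT x y ∧ ∀ u v, (N : ℝ) * sec (sepT z w) u v ≤ 4 * r * sec (sepT x y) u v

theorem sec_eq_ev {N : ℕ} (R : Arr N) (u v : Fin N → ℝ) : sec R u v = ev R u v u v := rfl

private theorem sq_left {N p q : ℕ} (x y : Fin p → Fin N → ℝ) (z w : Fin q → Fin N → ℝ) :
    sq (Sum.elim (fun _ : Fin p => (1 : ℝ)) (fun _ : Fin q => 0)) (Sum.elim x z) (Sum.elim y w) = sepT x y := by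
  funext i j k l
  unfold sq sepT wd
  simp [Fintype.sum_sum_type]

private theorem sq_right {N p q : ℕ} (x y : Fin p → Fin N → ℝ) (z w : Fin q → Fin N → ℝ) :
    sq (Sum.elim (fun _ : Fin p => (0 : ℝ)) (fun _ : Fin q => 1)) (Sum.elim x z) (Sum.elim y w) = sepT z w := by
  funext i j k l
  unfold sq sepT wd
  simp [Fintype.sum_sum_type]

private theorem gb_neg' {n : ℕ} (T : Arr (2 * n)) :
    gaussBonnet n (fun i j k l => - T i j k l) = (-1) ^ n * gaussBonnet n T := by
  unfold gaussBonnet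
  rw [mul_sum]
  refine sum_congr rfl fun σ _ => ?_
  rw [mul_sum]
  refine sum_congr rfl fun τ _ => ?_
  rw [prod_neg, card_univ, Fintype.card_fin]
  ring

private theorem gb_rel {n : ℕ} {R P Q : Arr (2 * n)} (h : R = Q - P) :
    (-1) ^ n * gaussBonnet n R = gaussBonnet n (fun i j k l => P i j k l - Q i j k l) := by
  rw [← gb_neg']
  congr 1
  funext i j k l
  rw [h]
  simp only [Pi.sub_apply]
  ring

private theorem sec_sepT_nonneg {N q : ℕ} (x y : Fin q → Fin N → ℝ) (u v : Fin N → ℝ) : 0 ≤ sec (sepT x y) u v := by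
  have h := sq_left x y (fun _ : Fin 0 => (0 : Fin N → ℝ)) (fun _ => 0)
  rw [← h, sec_eq_ev, ev_sq]
  refine Finset.sum_nonneg fun s _ => mul_nonneg ?_ (sq_nonneg _)
  rcases s with s | s <;> simp

private theorem sec_sub' {N : ℕ} (Q P : Arr N) (u v : Fin N → ℝ) : sec (Q - P) u v = sec Q u v - sec P u v := by
  unfold Pool.Agent.H72S.sec
  simp only [← sum_sub_distrib, Pi.sub_apply, sub_mul]

/-- The class is contained in the class of nonpositive sectional curvature. -/
theorem relPinch_sec {N : ℕ} {R : Arr N} (h : RelPinch 1 R) (u v : Fin N → ℝ) : sec R u v ≤ 0 := by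
  obtain ⟨hN, p, q, x, y, z, w, hR, hh⟩ := h
  have h4 : (4 : ℝ) ≤ N := by exact_mod_cast hN
  have h1 := hh u v
  have h2 := sec_sepT_nonneg z w u v
  have h3 := mul_le_mul_of_nonneg_right h4 h2
  rw [hR, sec_sub']
  linarith

/-- The pointwise theorem. -/
theorem relPinch_gb {n : ℕ} {R : Arr (2 * n)} (h : RelPinch 1 R) : 0 ≤ (-1) ^ n * gaussBonnet n R := by
  obtain ⟨hN, p, q, x, y, z, w, hR, hh⟩ := h
  rw [gb_rel hR, ← sq_left x y z w, ← sq_right x y z w]
  refine pointwise (by omega) _ _ (fun s => ?_) (fun s => ?_) _ _ fun u v => ?_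
  · rcases s with s | s <;> simp
  · rcases s with s | s <;> simp
  · rw [sq_left, sq_right, ← sec_eq_ev, ← sec_eq_ev]
    have := hh u v
    push_cast at this
    linarith

/-- The pointwise theorem, strict form. -/
theorem relPinch_gb_pos {n : ℕ} {R : Arr (2 * n)} {r : ℝ} (hr : r < 1) (h : RelPinch r R)
    (hs : ∀ u v, LinearIndependent ℝ ![u, v] → sec R u v < 0) : 0 < (-1) ^ n * gaussBonnet n R := by
  obtain ⟨hN, p, q, x, y, z, w, hR, hh⟩ := h
  rw [gb_rel hR, ← sq_left x y z w, ← sq_right x y z w]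
  refine pointwise_pos (by omega) _ _ (fun s => ?_) (fun s => ?_) _ _ r hr (fun u v => ?_) fun u v huv => ?_
  · rcases s with s | s <;> simp
  · rcases s with s | s <;> simp
  · rw [sq_left, sq_right, ← sec_eq_ev, ← sec_eq_ev]
    have := hh u v
    push_cast at this
    linarith
  · rw [sq_left, ← sec_eq_ev]
    have h1 := hs u v huv
    rw [hR, sec_sub'] at h1
    have h2 := sec_sepT_nonneg z w u v
    linarith

/-- The pointwise theorem in a frame. -/
theorem relPinch_frame {n : ℕ} {R : Arr (2 * n)} (E : Mt (2 * n)) (h : RelPinch 1 R) :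
    0 ≤ (-1) ^ n * gaussBonnet n (frameR R E) := by
  rw [gb_frameR, mul_left_comm]
  exact mul_nonneg (sq_nonneg _) (relPinch_gb h)

/-- The pointwise theorem in a frame, strict form. -/
theorem relPinch_frame_pos {n : ℕ} {R : Arr (2 * n)} {E : Mt (2 * n)} (hE : E.det ≠ 0) {r : ℝ} (hr : r < 1)
    (h : RelPinch r R) (hs : ∀ u v, LinearIndependent ℝ ![u, v] → sec R u v < 0) :
    0 < (-1) ^ n * gaussBonnet n (frameR R E) := by
  rw [gb_frameR, mul_left_comm]
  exact mul_pos (by positivity) (relPinch_gb_pos hr h hs)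

/-- Closed manifolds. -/
theorem relPinch_main (n : ℕ) (M : Closed (2 * n)) (g : Ch.Metric (2 * n) M.carrier)
    (hK : ∀ p : M.carrier, ∀ y ∈ (chartAt (EE (2 * n)) p).target, RelPinch 1 (riem (g.mat p) y)) :
    ∃ χ : ℤ, IsEulerCharacteristic (2 * n) M.carrier χ ∧ 0 ≤ (-1) ^ n * χ ∧
      ((∃ m : M.carrier, (∃ r : ℝ, r < 1 ∧ RelPinch r (riem (g.mat m) (chartAt (EE (2 * n)) m m))) ∧
        ∀ u v, LinearIndependent ℝ ![u, v] → sec (riem (g.mat m) (chartAt (EE (2 * n)) m m)) u v < 0) →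
        0 < (-1) ^ n * χ) := by
  obtain ⟨χ, h1, h2, h3⟩ := sign_principle n M g ((-1) ^ n) fun p y hy E _ => relPinch_frame E (hK p y hy)
  refine ⟨χ, h1, by exact_mod_cast h2, fun ⟨m, ⟨r, hr, hm⟩, hs⟩ => ?_⟩
  have h4 : (0 : ℝ) < (-1) ^ n * χ := h3 ⟨m, fun E hE => by
    have h5 : E.det ≠ 0 := by
      intro h
      have h2 := congrArg Matrix.det hE
      rw [Matrix.det_mul, Matrix.det_mul, h, mul_zero, Matrix.det_one] at h2
      exact zero_ne_one h2
    exact relPinch_frame_pos h5 hr hm hs⟩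
  exact_mod_cast h4

end H35R
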